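import Mathlib

set_option autoImplicit false

/-! Choice of the parameters (asymptotics). -/

namespace Pool.Agent.Q75.SW

open Real Filter

lemma ev_log_ge (L : ℝ) : ∀ᶠ M : ℝ in atTop, L ≤ log M :=
  tendsto_log_atTop.eventually_ge_atTop L

lemma ev_log_le (ε : ℝ) (hε : 0 < ε) : ∀ᶠ M : ℝ in atTop, log M ≤ ε * M := by
  have h := (isLittleO_log_id_atTop).def hε
  filter_upwards [h, eventually_ge_atTop 1] with t ht ht1
  rw [norm_of_nonneg (log_nonneg ht1), id, norm_of_nonneg (by linarith)] at ht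
  exact ht

lemma asy1 (C δ κ : ℝ) (hC : 0 < C) (hδ : 0 < δ) (hκ : 1 + 2 * C / δ < κ) :
    ∀ᶠ M : ℝ in atTop, ∃ r : ℕ, 1 ≤ r ∧ ∀ y : ℝ, M ^ κ - 1 ≤ y → y ≤ M ^ κ →
      2 * exp (C * M) ^ 2 ≤ (y / (4 * r * log y)) ^ r ∧
      8 * (4 * r * log y) ^ r * (C * M) < exp (δ * M) := by
  have hk1 : 2 * C < (κ - 1) * δ := by
    have : 2 * C / δ < κ - 1 := by linarith
    rwa [div_lt_iff₀ hδ] at this
  have hk0 : 0 < κ - 1 := by
    have : 0 < 2 * C / δ := by positivity
    linarith
  have hκ0 : 0 < κ := by linarith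
  obtain ⟨a, ha⟩ : ∃ a : ℝ, a = (2 * C / (κ - 1) + δ) / 2 := ⟨_, rfl⟩
  have h1 : 2 * C / (κ - 1) < δ := by rw [div_lt_iff₀ hk0]; linarith
  have ha1 : a < δ := by rw [ha]; linarith
  have ha2 : 2 * C / (κ - 1) < a := by rw [ha]; linarith
  have ha0 : 0 < a := lt_trans (by positivity) ha2
  rw [div_lt_iff₀ hk0] at ha2
  obtain ⟨η1, hη1⟩ : ∃ η1 : ℝ, η1 = a * (κ - 1) - 2 * C := ⟨_, rfl⟩
  have hη10 : 0 < η1 := by rw [hη1]; linarith
  obtain ⟨η2, hη2⟩ : ∃ η2 : ℝ, η2 = δ - a := ⟨_, rfl⟩
  have hη20 : 0 < η2 := by rw [hη2]; linarith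
  obtain ⟨b, hb⟩ : ∃ b : ℝ, b = log (8 * κ * a) := ⟨_, rfl⟩
  obtain ⟨b', hb'⟩ : ∃ b' : ℝ, b' = b + log 2 := ⟨_, rfl⟩
  filter_upwards [ev_log_ge 1, ev_log_ge (|b'| / (κ - 1)), ev_log_ge (2 * a * |b'| / η1),
    ev_log_ge |b|, ev_log_ge (4 * a * |b| / η2), ev_log_le a ha0,
    ev_log_le (η2 / 8) (by positivity), eventually_ge_atTop (2 * log 2 / η1),
    eventually_gt_atTop (4 * (|b| + |log C| + log 8) / η2), eventually_gt_atTop 0,
    (tendsto_rpow_atTop hκ0).eventually_ge_atTop 4] with
    M m1 m2 m3 m4 m5 m6 m7 m8 m9 m10 m11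
  obtain ⟨l, hl⟩ : ∃ l : ℝ, l = log M := ⟨_, rfl⟩
  rw [← hl] at m1 m2 m3 m4 m5 m6 m7
  have hl0 : 0 < l := by linarith
  obtain ⟨q, hq⟩ : ∃ q : ℝ, q = M / l := ⟨_, rfl⟩
  have hqM : q * l = M := by rw [hq, div_mul_cancel₀ _ hl0.ne']
  have hq0 : 0 < q := by rw [hq]; positivity
  obtain ⟨r, hr⟩ : ∃ r : ℕ, r = ⌈a * q⌉₊ := ⟨_, rfl⟩
  have hr1 : a * q ≤ r := by rw [hr]; exact Nat.le_ceil _
  have hr2 : (r : ℝ) ≤ a * q + 1 := by rw [hr]; exact (Nat.ceil_lt_add_one (by positivity)).le
  have hr0 : 1 ≤ r := by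
    rw [hr]; exact Nat.ceil_pos.2 (by positivity)
  have hrR : (1 : ℝ) ≤ r := by exact_mod_cast hr0
  refine ⟨r, hr0, fun y hy1 hy2 => ?_⟩
  have hy3 : M ^ κ / 2 ≤ y := by linarith
  have hy4 : 2 ≤ y := by linarith
  have hly : log y ≤ κ * l := by
    have := log_le_log (by linarith) hy2
    rwa [log_rpow m10, ← hl] at this
  have hly0 : 0 < log y := log_pos (by linarith)
  obtain ⟨U, hU⟩ : ∃ U : ℝ, U = 4 * r * log y := ⟨_, rfl⟩
  have hU0 : 0 < U := by rw [hU]; positivity
  have hUW : U ≤ 8 * κ * a * M := by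
    rw [hU]
    calc 4 * r * log y ≤ 4 * (a * q + 1) * (κ * l) := by gcongr
      _ = 4 * κ * a * (q * l) + 4 * κ * l := by ring
      _ = 4 * κ * a * M + 4 * κ * l := by rw [hqM]
      _ ≤ 4 * κ * a * M + 4 * κ * (a * M) := by gcongr
      _ = _ := by ring
  have hW : 8 * κ * a * M = exp (b + l) := by
    rw [exp_add, hb, hl, exp_log (by positivity), exp_log m10]
  rw [hW] at hUW
  rw [← hU]
  have hbl : 0 ≤ b + l := by
    have := neg_abs_le b
    linarith
  have hUr : U ^ r ≤ exp (r * (b + l)) := by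
    rw [exp_nat_mul]
    exact pow_le_pow_left₀ hU0.le hUW r
  constructor
  · have h2 : exp ((κ - 1) * l - b') ≤ y / U := by
      rw [le_div_iff₀ hU0]
      calc exp ((κ - 1) * l - b') * U ≤ exp ((κ - 1) * l - b') * exp (b + l) := by gcongr
        _ = exp (κ * l - log 2) := by rw [← exp_add, hb']; congr 1; ring
        _ = M ^ κ / 2 := by
            rw [exp_sub, exp_log (by norm_num), rpow_def_of_pos m10, hl]
            congr 2
            ring
        _ ≤ y := hy3
    have h3 : 0 ≤ (κ - 1) * l - b' := by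
      rw [div_le_iff₀ hk0] at m2
      have := le_abs_self b'
      nlinarith
    calc 2 * exp (C * M) ^ 2 = exp (log 2 + 2 * (C * M)) := by
          rw [exp_add, exp_log (by norm_num), ← exp_nat_mul]
          norm_num
      _ ≤ exp (r * ((κ - 1) * l - b')) := by
          apply exp_le_exp.2
          have h4 : a * q * ((κ - 1) * l - b') ≤ r * ((κ - 1) * l - b') :=
            mul_le_mul_of_nonneg_right hr1 h3
          have h5 : a * q * ((κ - 1) * l - b') = (η1 + 2 * C) * M - a * q * b' := by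
            rw [hη1, ← hqM]; ring
          have h6 : a * q * b' ≤ η1 / 2 * M := by
            have h7 : a * q * b' ≤ a * q * |b'| :=
              mul_le_mul_of_nonneg_left (le_abs_self b') (by positivity)
            rw [div_le_iff₀ hη10] at m3
            have h8 : q * (2 * a * |b'|) ≤ q * (l * η1) :=
              mul_le_mul_of_nonneg_left m3 hq0.le
            have h9 : q * (l * η1) = M * η1 := by rw [← mul_assoc, hqM]
            linarith
          rw [div_le_iff₀ hη10] at m8
          linarith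
      _ = exp ((κ - 1) * l - b') ^ r := by rw [exp_nat_mul]
      _ ≤ (y / U) ^ r := pow_le_pow_left₀ (exp_pos _).le h2 r
  · have hCM : C * M ≤ exp (|log C| + l) := by
      rw [exp_add, hl, exp_log m10]
      have : C ≤ exp |log C| := by
        calc C = exp (log C) := (exp_log hC).symm
          _ ≤ _ := exp_le_exp.2 (le_abs_self _)
      gcongr
    have h8 : (8 : ℝ) = exp (log 8) := (exp_log (by norm_num)).symm
    calc 8 * U ^ r * (C * M) ≤ exp (log 8) * exp (r * (b + l)) * exp (|log C| + l) := by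
          rw [← h8]; gcongr
      _ = exp (log 8 + r * (b + l) + (|log C| + l)) := by
          rw [exp_add (log 8 + r * (b + l)), exp_add (log 8)]
      _ < exp (δ * M) := by
          apply exp_lt_exp.2
          have h2 : (r : ℝ) * (b + l) ≤ (a * q + 1) * (b + l) :=
            mul_le_mul_of_nonneg_right hr2 hbl
          have h3 : (a * q + 1) * (b + l) = a * M + a * q * b + l + b := by
            rw [← hqM]; ring
          have h4 : a * q * b ≤ η2 / 4 * M := by
            have h7 : a * q * b ≤ a * q * |b| :=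
              mul_le_mul_of_nonneg_left (le_abs_self b) (by positivity)
            rw [div_le_iff₀ hη20] at m5
            have h8 : q * (4 * a * |b|) ≤ q * (l * η2) :=
              mul_le_mul_of_nonneg_left m5 hq0.le
            have h9 : q * (l * η2) = M * η2 := by rw [← mul_assoc, hqM]
            linarith
          rw [div_lt_iff₀ hη20] at m9
          have h10 := le_abs_self b
          have h11 : δ = η2 + a := by rw [hη2]; ring
          rw [h11]
          linarith

lemma asy2 (A δ c : ℝ) (hA : 0 < A) (hδ : 0 < δ) (hc : 0 < c) (hcA : c < A * δ / 4) :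
    ∀ᶠ M : ℝ in atTop, ∃ r : ℕ, 1 ≤ r ∧ ∀ y : ℝ, exp (A * M) ≤ y → y ≤ 2 * exp (A * M) →
      2 * exp (c * (M ^ 2 / log M)) ^ 2 ≤ (y / (4 * r * log y)) ^ r ∧
      8 * (4 * r * log y) ^ r * (c * (M ^ 2 / log M)) < exp (δ * M) := by
  obtain ⟨a, ha⟩ : ∃ a : ℝ, a = (2 * c / A + δ / 2) / 2 := ⟨_, rfl⟩
  have h1 : 2 * c / A < δ / 2 := by rw [div_lt_iff₀ hA]; linarith
  have ha1 : 2 * a < δ := by rw [ha]; linarith
  have ha2 : 2 * c / A < a := by rw [ha]; linarith
  have ha0 : 0 < a := lt_trans (by positivity) ha2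
  rw [div_lt_iff₀ hA] at ha2
  obtain ⟨η1, hη1⟩ : ∃ η1 : ℝ, η1 = a * A - 2 * c := ⟨_, rfl⟩
  have hη10 : 0 < η1 := by rw [hη1]; linarith
  obtain ⟨η2, hη2⟩ : ∃ η2 : ℝ, η2 = δ - 2 * a := ⟨_, rfl⟩
  have hη20 : 0 < η2 := by rw [hη2]; linarith
  obtain ⟨b, hb⟩ : ∃ b : ℝ, b = log (16 * A * a) := ⟨_, rfl⟩
  have hl2 : 0 < log 2 := log_pos (by norm_num)
  filter_upwards [ev_log_ge 1, ev_log_ge |b|, ev_log_ge (4 * a * |b| / η2), ev_log_le a ha0,
    ev_log_le (η2 / 16) (by positivity), ev_log_le (A / 3) (by positivity),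
    ev_log_le (η1 / (8 * a)) (by positivity), ev_log_le 1 one_pos,
    eventually_ge_atTop (4 * a * |b| / η1), eventually_ge_atTop (4 * log 2 / η1),
    eventually_gt_atTop (4 * (|b| + |log c| + log 8) / η2), eventually_gt_atTop 0,
    eventually_ge_atTop (log 2 / A)] with
    M m1 m2 m3 m4 m5 m6 m7 m8 m9 m10 m11 m12 m13
  obtain ⟨l, hl⟩ : ∃ l : ℝ, l = log M := ⟨_, rfl⟩
  rw [← hl] at m1 m2 m3 m4 m5 m6 m7 m8
  rw [← hl]
  have hl0 : 0 < l := by linarith
  obtain ⟨q, hq⟩ : ∃ q : ℝ, q = M / l := ⟨_, rfl⟩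
  have hqM : q * l = M := by rw [hq, div_mul_cancel₀ _ hl0.ne']
  have hq0 : 0 < q := by rw [hq]; positivity
  have hqleM : q ≤ M := by rw [← hqM]; exact le_mul_of_one_le_right hq0.le m1
  have hMq : M ^ 2 / l = q * M := by rw [hq]; ring
  have hq1 : 1 ≤ q := by
    rw [hq, le_div_iff₀ hl0]; linarith
  have haq1 : 1 ≤ a * q := by
    rw [hq, mul_div_assoc', le_div_iff₀ hl0]; linarith
  have hq2 : 8 * a ≤ η1 * q := by
    rw [hq, mul_div_assoc', le_div_iff₀ hl0]
    have : l * (8 * a) ≤ η1 / (8 * a) * M * (8 * a) := by gcongr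
    have h2 : η1 / (8 * a) * M * (8 * a) = η1 * M := by field_simp
    linarith
  rw [hMq]
  obtain ⟨r, hr⟩ : ∃ r : ℕ, r = ⌈a * q⌉₊ := ⟨_, rfl⟩
  have hr1 : a * q ≤ r := by rw [hr]; exact Nat.le_ceil _
  have hr2 : (r : ℝ) ≤ a * q + 1 := by rw [hr]; exact (Nat.ceil_lt_add_one (by positivity)).le
  have hr0 : 1 ≤ r := by
    rw [hr]; exact Nat.ceil_pos.2 (by positivity)
  have hrR : (1 : ℝ) ≤ r := by exact_mod_cast hr0
  refine ⟨r, hr0, fun y hy1 hy2 => ?_⟩
  have hAM : log 2 ≤ A * M := by rw [div_le_iff₀ hA] at m13; linarith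
  have hy4 : 2 ≤ y := by
    refine le_trans ?_ hy1
    calc (2 : ℝ) = exp (log 2) := (exp_log (by norm_num)).symm
      _ ≤ _ := exp_le_exp.2 hAM
  have hly : log y ≤ 2 * (A * M) := by
    have := log_le_log (by linarith) hy2
    rw [log_mul (by norm_num) (exp_pos _).ne', log_exp] at this
    linarith
  have hly0 : 0 < log y := log_pos (by linarith)
  obtain ⟨U, hU⟩ : ∃ U : ℝ, U = 4 * r * log y := ⟨_, rfl⟩
  have hU0 : 0 < U := by rw [hU]; positivity
  have hUW : U ≤ 16 * A * a * M ^ 2 := by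
    rw [hU]
    calc 4 * r * log y ≤ 4 * (a * q + a * q) * (2 * (A * M)) := by
          have : (r : ℝ) ≤ a * q + a * q := by linarith
          gcongr
      _ = 16 * A * a * (q * M) := by ring
      _ ≤ 16 * A * a * (M * M) := by gcongr
      _ = _ := by ring
  have hW : 16 * A * a * M ^ 2 = exp (b + 2 * l) := by
    rw [exp_add, hb, hl, exp_log (by positivity), two_mul, exp_add, exp_log m12]
    ring
  rw [hW] at hUW
  rw [← hU]
  have hbl : 0 ≤ b + 2 * l := by
    have := neg_abs_le b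
    linarith
  have hUr : U ^ r ≤ exp (r * (b + 2 * l)) := by
    rw [exp_nat_mul]
    exact pow_le_pow_left₀ hU0.le hUW r
  constructor
  · have h2 : exp (A * M - 2 * l - b) ≤ y / U := by
      rw [le_div_iff₀ hU0]
      calc exp (A * M - 2 * l - b) * U ≤ exp (A * M - 2 * l - b) * exp (b + 2 * l) := by gcongr
        _ = exp (A * M) := by rw [← exp_add]; congr 1; ring
        _ ≤ y := hy1
    have h3 : 0 ≤ A * M - 2 * l - b := by
      have := le_abs_self b
      linarith
    calc 2 * exp (c * (q * M)) ^ 2 = exp (log 2 + 2 * (c * (q * M))) := by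
          rw [exp_add, exp_log (by norm_num), ← exp_nat_mul]
          norm_num
      _ ≤ exp (r * (A * M - 2 * l - b)) := by
          apply exp_le_exp.2
          have h4 : a * q * (A * M - 2 * l - b) ≤ r * (A * M - 2 * l - b) :=
            mul_le_mul_of_nonneg_right hr1 h3
          have h5 : a * q * (A * M - 2 * l - b) =
              (η1 + 2 * c) * (q * M) - 2 * a * M - a * q * b := by
            have : a * q * (A * M - 2 * l - b) =
              (a * A) * (q * M) - 2 * a * (q * l) - a * q * b := by ring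
            rw [this, hqM, hη1]; ring
          have h6 : a * q * b ≤ η1 / 4 * (q * M) := by
            have h7 : a * q * b ≤ a * q * |b| :=
              mul_le_mul_of_nonneg_left (le_abs_self b) (by positivity)
            rw [div_le_iff₀ hη10] at m9
            have h8 : q * (4 * a * |b|) ≤ q * (M * η1) :=
              mul_le_mul_of_nonneg_left m9 hq0.le
            linarith
          have h7 : 2 * a * M ≤ η1 / 4 * (q * M) := by
            have h8 : 8 * a * M ≤ η1 * q * M := mul_le_mul_of_nonneg_right hq2 m12.le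
            linarith
          have h8 : log 2 ≤ η1 / 4 * (q * M) := by
            rw [div_le_iff₀ hη10] at m10
            have h9 : M ≤ q * M := le_mul_of_one_le_left m12.le hq1
            have h10 : η1 * M ≤ η1 * (q * M) := mul_le_mul_of_nonneg_left h9 hη10.le
            linarith
          have h9 : 0 ≤ η1 * (q * M) := by positivity
          linarith
      _ = exp (A * M - 2 * l - b) ^ r := by rw [exp_nat_mul]
      _ ≤ (y / U) ^ r := pow_le_pow_left₀ (exp_pos _).le h2 r
  · have hCM : c * (q * M) ≤ exp (|log c| + 2 * l) := by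
      rw [exp_add, hl, two_mul, exp_add, exp_log m12]
      have : c ≤ exp |log c| := by
        calc c = exp (log c) := (exp_log hc).symm
          _ ≤ _ := exp_le_exp.2 (le_abs_self _)
      gcongr
    have h8 : (8 : ℝ) = exp (log 8) := (exp_log (by norm_num)).symm
    calc 8 * U ^ r * (c * (q * M)) ≤
        exp (log 8) * exp (r * (b + 2 * l)) * exp (|log c| + 2 * l) := by
          rw [← h8]; gcongr
      _ = exp (log 8 + r * (b + 2 * l) + (|log c| + 2 * l)) := by
          rw [exp_add (log 8 + r * (b + 2 * l)), exp_add (log 8)]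
      _ < exp (δ * M) := by
          apply exp_lt_exp.2
          have h2 : (r : ℝ) * (b + 2 * l) ≤ (a * q + 1) * (b + 2 * l) :=
            mul_le_mul_of_nonneg_right hr2 hbl
          have h3 : (a * q + 1) * (b + 2 * l) = 2 * a * M + a * q * b + 2 * l + b := by
            rw [← hqM]; ring
          have h4 : a * q * b ≤ η2 / 4 * M := by
            have h7 : a * q * b ≤ a * q * |b| :=
              mul_le_mul_of_nonneg_left (le_abs_self b) (by positivity)
            rw [div_le_iff₀ hη20] at m3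
            have h8 : q * (4 * a * |b|) ≤ q * (l * η2) :=
              mul_le_mul_of_nonneg_left m3 hq0.le
            have h9 : q * (l * η2) = M * η2 := by rw [← mul_assoc, hqM]
            linarith
          rw [div_lt_iff₀ hη20] at m11
          have h10 := le_abs_self b
          have h11 : δ = η2 + 2 * a := by rw [hη2]; ring
          rw [h11]
          linarith

end Pool.Agent.Q75.SW
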