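import Pool.Agent.Q75.SW.Same
import Pool.Agent.W57.SW.Smooth

set_option autoImplicit false

/-! Numbers without small witnesses for the strong test: explicit bounds. -/

namespace Pool.Agent.Q75.SW

open Finset Real

open Pool.Agent.H379R2.W (Passes)

open Pool.Agent.W57.SW (liars liars_sq pr mem_pr card_pr prods card_prods prods_spec
  primeCounting_low smooth_many)

lemma exp_le_pow4 {y : ℕ} (h1 : 2 ≤ y) (h2 : y ≤ 8) : (y : ℝ) ≤ 4 * log y := by
  have h3 : (y : ℝ) ≤ log ((y : ℝ) ^ 4) := by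
    have hy : (0 : ℝ) < y := by exact_mod_cast (by omega : 0 < y)
    rw [le_log_iff_exp_le (by positivity)]
    have h4 : exp (y : ℝ) = exp 1 ^ y := by rw [← exp_nat_mul]; simp
    have h5 := exp_one_lt_d9
    rw [h4]
    have h6 : exp 1 ^ y ≤ (2.7182818286 : ℝ) ^ y :=
      pow_le_pow_left₀ (exp_pos 1).le h5.le y
    refine h6.trans ?_
    interval_cases y <;> norm_num
  rwa [log_pow] at h3

/-- Chebyshev -/
lemma pi_low {y : ℕ} (h : 4 * log y < y) (hy : 2 ≤ y) :
    (y : ℝ) ≤ 2 * log y * Nat.primeCounting y := by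
  have h9 : 9 ≤ y := by
    by_contra hcon
    have := exp_le_pow4 hy (by omega)
    linarith
  rcases Nat.lt_or_ge y 17 with h17 | h17
  · have h4 : 4 ≤ Nat.primeCounting y := by
      calc 4 = Nat.primeCounting 9 := by decide +kernel
        _ ≤ _ := Nat.monotone_primeCounting h9
    have h5 : (2 : ℝ) ≤ log y := by
      have hy9 : (9 : ℝ) ≤ y := by exact_mod_cast h9
      rw [le_log_iff_exp_le (by linarith)]
      have h6 : exp (2 : ℝ) = exp 1 ^ 2 := by rw [← exp_nat_mul]; simp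
      have h7 := exp_one_lt_d9
      have h8 := exp_pos 1
      rw [h6]
      nlinarith
    have h6 : (y : ℝ) ≤ 16 := by exact_mod_cast (by omega : y ≤ 16)
    have h7 : (4 : ℝ) ≤ Nat.primeCounting y := by exact_mod_cast h4
    nlinarith
  · have h1 := primeCounting_low (y := y)
    have h2 := log_two_gt_d9
    have h3 := log_two_lt_d9
    have hy17 : (17 : ℝ) ≤ y := by exact_mod_cast h17
    have h4 : log ((y : ℝ) + 1) ≤ ((y : ℝ) + 1) / 16 + 4 * log 2 - 1 := by
      have h5 : log (((y : ℝ) + 1) / 16) ≤ ((y : ℝ) + 1) / 16 - 1 :=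
        log_le_sub_one_of_pos (by positivity)
      rw [log_div (by positivity) (by norm_num)] at h5
      have h6 : log (16 : ℝ) = 4 * log 2 := by
        rw [show (16 : ℝ) = 2 ^ 4 by norm_num, log_pow]; norm_num
      linarith
    nlinarith

/-- the explicit bound for the number of the prime factors up to `Z` -/
theorem explicit {n y r Z : ℕ} (hr : 1 ≤ r) (hpass : ∀ b : ℕ, 1 < b → b ≤ y → Passes n b)
    (h : 2 * (Z : ℝ) ^ 2 ≤ ((y : ℝ) / (4 * r * log y)) ^ r) :
    ((n.primeFactors.filter (fun p => p ≤ Z)).card : ℝ) ≤ 8 * (4 * r * log y) ^ r := by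
  classical
  have hlog : 0 ≤ log (y : ℝ) := log_natCast_nonneg y
  rcases Nat.eq_zero_or_pos Z with hZ | hZ
  · have h0 : n.primeFactors.filter (fun p => p ≤ Z) = ∅ := by
      rw [filter_eq_empty_iff]
      intro p hp
      have := (Nat.prime_of_mem_primeFactors hp).pos
      omega
    rw [h0]
    simp only [card_empty, Nat.cast_zero]
    positivity
  have hZR : (1 : ℝ) ≤ Z := by exact_mod_cast hZ
  obtain ⟨ρ, hρ⟩ : ∃ ρ : ℝ, ρ = (y : ℝ) / (4 * r * log y) := ⟨_, rfl⟩
  rw [← hρ] at h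
  have hρ0 : 0 ≤ ρ := by rw [hρ]; positivity
  have hρ1 : 1 < ρ := by
    by_contra hcon
    push Not at hcon
    have := pow_le_one₀ hρ0 hcon (n := r)
    nlinarith
  have hrR : (1 : ℝ) ≤ r := by exact_mod_cast hr
  have hlog0 : 0 < log (y : ℝ) := by
    rcases hlog.eq_or_lt with h0 | h0
    · rw [← h0] at hρ
      rw [hρ] at hρ1
      simp at hρ1
      linarith
    · exact h0
  have hy2 : 2 ≤ y := by
    by_contra hcon
    have : y = 0 ∨ y = 1 := by omega
    rcases this with rfl | rfl <;> simp at hlog0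
  have hU : 0 < 4 * r * log (y : ℝ) := by positivity
  have hyU : 4 * r * log (y : ℝ) < y := by
    rw [hρ, lt_div_iff₀ hU, one_mul] at hρ1
    exact hρ1
  have hpi := pi_low (y := y) (by nlinarith) hy2
  obtain ⟨P, hP⟩ : ∃ P : ℕ, P = Nat.primeCounting y := ⟨_, rfl⟩
  rw [← hP] at hpi
  -- `r ≤ P / 2`
  have hrP : 2 * r < P := by
    have h1 : (2 * r : ℝ) < P := by
      by_contra hcon
      push Not at hcon
      nlinarith
    exact_mod_cast h1
  obtain ⟨B, hB⟩ : ∃ B, B = prods (pr y) r := ⟨_, rfl⟩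
  have hBcard : B.card = P.choose r := by
    rw [hB, card_prods (fun p hp => (mem_pr.1 hp).1), card_pr, hP]
  have hBlow : ρ ^ r ≤ (B.card : ℝ) := by
    rw [hBcard]
    have h1 := Nat.pow_le_choose r P (α := ℝ)
    refine le_trans ?_ h1
    have h2 : ((P + 1 - r : ℕ) : ℝ) = P + 1 - r := by
      rw [Nat.cast_sub (by omega)]; push_cast; ring
    rw [h2]
    have h3 : ((r.factorial : ℕ) : ℝ) ≤ (r : ℝ) ^ r := by
      exact_mod_cast Nat.factorial_le_pow r
    have h4 : (0 : ℝ) < r.factorial := by positivity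
    rw [le_div_iff₀ h4]
    have h5 : (2 * r : ℝ) < P := by exact_mod_cast hrP
    calc ρ ^ r * r.factorial ≤ ρ ^ r * (r : ℝ) ^ r := by gcongr
      _ = (ρ * r) ^ r := by rw [mul_pow]
      _ ≤ ((P : ℝ) + 1 - r) ^ r := by
          apply pow_le_pow_left₀ (by positivity)
          have h6 : ρ * r = (y : ℝ) / (4 * log y) := by
            rw [hρ]
            field_simp
          rw [h6, div_le_iff₀ (by positivity)]
          nlinarith
  have hcount := count_le (n := n) (y := y) (Z := Z) (x := y ^ r + 1) hy2 hpass B (fun s hs => by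
    obtain ⟨g1, g2, g3, _, _⟩ := prods_spec (A := pr y) (fun p hp => (mem_pr.1 hp).1)
      (y := y) (fun p hp => (mem_pr.1 hp).2) (hB ▸ hs)
    refine ⟨g1, by omega, fun l hl hls => ?_⟩
    exact (mem_pr.1 (g3 (Nat.mem_primeFactors.2 ⟨hl, hls, by omega⟩))).2) (by
      have : (2 : ℝ) * (Z : ℝ) ^ 2 ≤ B.card := h.trans hBlow
      exact_mod_cast this)
  have h7 : ((n.primeFactors.filter (fun p => p ≤ Z)).card : ℝ) * B.card ≤
      4 * ((y : ℝ) ^ r + 1) := by exact_mod_cast hcount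
  have h8 : (1 : ℝ) ≤ (y : ℝ) ^ r := one_le_pow₀ (by exact_mod_cast (by omega : 1 ≤ y))
  have h9 : ((n.primeFactors.filter (fun p => p ≤ Z)).card : ℝ) * ρ ^ r ≤ 8 * (y : ℝ) ^ r := by
    calc _ ≤ ((n.primeFactors.filter (fun p => p ≤ Z)).card : ℝ) * B.card := by gcongr
      _ ≤ 4 * ((y : ℝ) ^ r + 1) := h7
      _ ≤ _ := by linarith
  have h10 : (y : ℝ) ^ r = ρ ^ r * (4 * r * log y) ^ r := by
    rw [← mul_pow, hρ, div_mul_cancel₀ _ hU.ne']
  rw [h10] at h9
  have h11 : 0 < ρ ^ r := by positivity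
  by_contra hcon
  push Not at hcon
  nlinarith

/-- squares -/
theorem sq_bound (A : ℝ) (hA : 2 < A) : ∃ D0 : ℕ, ∀ n y p : ℕ, n ≠ 0 → D0 ≤ y → p.Prime →
    (2 * log p) ^ A ≤ y → (∀ b : ℕ, 1 < b → b ≤ y → Passes n b) → ¬ p ^ 2 ∣ n := by
  have hA0 : 0 < A := by linarith
  have hδ : 0 < 1 / 2 - 1 / A := by
    rw [sub_pos]
    exact one_div_lt_one_div_of_lt (by norm_num) hA
  obtain ⟨D0, hD0⟩ := smooth_many A (1 / 2 - 1 / A) (by linarith) hδ
  refine ⟨D0 + 1, fun n y p hn0 hy hpp hlog hpass hp2n => ?_⟩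
  have hpn : p ∣ n := (dvd_pow_self p two_ne_zero).trans hp2n
  have hp : p ∈ n.primeFactors := Nat.mem_primeFactors.2 ⟨hpp, hpn, hn0⟩
  have hn : 2 ≤ n := hpp.two_le.trans (Nat.le_of_dvd (Nat.pos_of_ne_zero hn0) hpn)
  have hyp := big_of_pass hpass hp
  have hpD : D0 ≤ p ^ 2 := by nlinarith
  obtain ⟨S, hS1, hS2⟩ := hD0 (p ^ 2) hpD
  have hl : log ((p ^ 2 : ℕ) : ℝ) = 2 * log p := by
    push_cast
    rw [log_pow]
    norm_num
  have h1 := card_le_liars (Nat.one_le_pow _ _ hpp.pos) hp2n hpass S (fun s hs => by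
    obtain ⟨g1, g2, _, _, g3⟩ := hS1 s hs
    refine ⟨g1, g2, fun l hl' hls => ?_⟩
    have g4 := g3 l hl' hls
    rw [hl] at g4
    exact_mod_cast g4.trans hlog)
  have h2 := h1.trans (liars_sq hn hpp hpn)
  have h3 : 1 - 1 / A - (1 / 2 - 1 / A) = 1 / 2 := by ring
  rw [h3] at hS2
  push_cast at hS2
  rw [← Real.sqrt_eq_rpow, Real.sqrt_sq (by positivity)] at hS2
  have h4 : p ≤ S.card := by exact_mod_cast hS2
  have := hpp.pos
  omega

/-- the smooth part -/
theorem smooth_part {n y r Z m : ℕ} (hr : 1 ≤ r) (hn0 : n ≠ 0)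
    (hpass : ∀ b : ℕ, 1 < b → b ≤ y → Passes n b)
    (h : 2 * (Z : ℝ) ^ 2 ≤ ((y : ℝ) / (4 * r * log y)) ^ r)
    (hsq : ∀ p : ℕ, p.Prime → p ≤ Z → ¬ p ^ 2 ∣ n) (hmn : m ∣ n)
    (hm : ∀ p : ℕ, p.Prime → p ∣ m → p ≤ Z) (X : ℝ) (hX : 0 ≤ X) (hZX : log Z ≤ X) :
    Squarefree m ∧ log m ≤ 8 * (4 * r * log y) ^ r * X := by
  have hm0 : m ≠ 0 := ne_zero_of_dvd_ne_zero hn0 hmn
  have hsf : Squarefree m := by
    rw [Nat.squarefree_iff_prime_squarefree]
    intro p hp hpm
    refine hsq p hp (hm p hp ((dvd_mul_left p p).trans hpm)) ?_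
    rw [pow_two]
    exact hpm.trans hmn
  refine ⟨hsf, ?_⟩
  have h1 : ∏ p ∈ m.primeFactors, p = m := Nat.prod_primeFactors_of_squarefree hsf
  have h2 : log (m : ℝ) = ∑ p ∈ m.primeFactors, log (p : ℝ) := by
    conv_lhs => rw [← h1]
    push_cast
    rw [log_prod]
    intro p hp
    exact_mod_cast (Nat.prime_of_mem_primeFactors hp).ne_zero
  have h3 : ∀ p ∈ m.primeFactors, log (p : ℝ) ≤ X := by
    intro p hp
    have h4 := hm p (Nat.prime_of_mem_primeFactors hp) (Nat.dvd_of_mem_primeFactors hp)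
    refine le_trans ?_ hZX
    apply log_le_log
    · exact_mod_cast (Nat.prime_of_mem_primeFactors hp).pos
    · exact_mod_cast h4
  have h5 : ((m.primeFactors).card : ℝ) ≤ ((n.primeFactors.filter (fun p => p ≤ Z)).card : ℝ) := by
    have : m.primeFactors.card ≤ (n.primeFactors.filter (fun p => p ≤ Z)).card := by
      apply card_le_card
      intro p hp
      rw [mem_filter]
      exact ⟨Nat.primeFactors_mono hmn hn0 hp,
        hm p (Nat.prime_of_mem_primeFactors hp) (Nat.dvd_of_mem_primeFactors hp)⟩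
    exact_mod_cast this
  rw [h2]
  calc ∑ p ∈ m.primeFactors, log (p : ℝ) ≤ ∑ p ∈ m.primeFactors, X := sum_le_sum h3
    _ = (m.primeFactors.card : ℝ) * X := by rw [sum_const, nsmul_eq_mul]
    _ ≤ (8 * (4 * r * log y) ^ r) * X := by
        apply mul_le_mul_of_nonneg_right _ hX
        exact h5.trans (explicit hr hpass h)

end Pool.Agent.Q75.SW
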