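import Pool.Agent.H471R4.BW.Gen
import Pool.Agent.H471R4.BW.TRP

set_option autoImplicit false

/-! Small witnesses for the strong test: integers with several prime factors of size a power of the
bound (`k` prime factors, pairs of characters). -/

namespace Pool.Agent.Q75.SW

open Finset Pool.Agent.H471R4.BW

open Pool.Agent.H379R2.W (Passes v2 same_symbol symbol_one not_dvd_of_passes)

/-- the sum of `1 / l` over the primes `y < l ≤ X` with `(l / N) ≠ 1` -/
noncomputable def bs (N y X : ℕ) : ℝ :=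
  ∑ l ∈ (Ioc y X).filter (fun l : ℕ => l.Prime ∧ jacobiSym l N ≠ 1), 1 / (l : ℝ)

lemma badSum_eq (N : ℕ) [NeZero N] (y X : ℕ) : badSum N (jchar N) y X = bs N y X := by
  classical
  unfold badSum bs
  apply Finset.sum_congr _ (fun _ _ => rfl)
  ext l
  simp only [mem_filter, jchar_apply, ne_eq]
  have : ((jacobiSym (l : ℤ) N : ℤ) : ℂ) = 1 ↔ jacobiSym (l : ℤ) N = 1 := by
    constructor
    · intro h
      exact_mod_cast h
    · intro h
      rw [h]; norm_num
  rw [this]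

lemma bs_mono (N y X X' : ℕ) (h : X ≤ X') : bs N y X ≤ bs N y X' := by
  unfold bs
  apply Finset.sum_le_sum_of_subset_of_nonneg
  · intro l hl
    simp only [mem_filter, mem_Ioc] at hl ⊢
    exact ⟨⟨hl.1.1, hl.1.2.trans h⟩, hl.2⟩
  · intro l _ _
    positivity

/-- number of pairs with different signs -/
lemma card_pairs (S : Finset ℕ) (f : ℕ → ℤ) (hf : ∀ p ∈ S, f p = 1 ∨ f p = -1) :
    (S.offDiag.filter (fun e => f e.1 * f e.2 ≠ 1)).card ≤ 2 * (S.card ^ 2 / 4) := by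
  classical
  set A := S.filter (fun p => f p = 1) with hA
  set B := S.filter (fun p => ¬ f p = 1) with hB
  have hAB : A.card + B.card = S.card := Finset.card_filter_add_card_filter_not _
  have hsub : S.offDiag.filter (fun e => f e.1 * f e.2 ≠ 1) ⊆ (A ×ˢ B) ∪ (B ×ˢ A) := by
    intro e he
    simp only [mem_filter, mem_offDiag] at he
    obtain ⟨⟨h1, h2, -⟩, h3⟩ := he
    simp only [mem_union, mem_product, hA, hB, mem_filter]
    rcases hf _ h1 with a1 | a1 <;> rcases hf _ h2 with a2 | a2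
    · exact absurd (by rw [a1, a2]; norm_num) h3
    · left; exact ⟨⟨h1, a1⟩, h2, by rw [a2]; norm_num⟩
    · right; exact ⟨⟨h1, by rw [a1]; norm_num⟩, h2, a2⟩
    · exact absurd (by rw [a1, a2]; norm_num) h3
  have h1 : (S.offDiag.filter (fun e => f e.1 * f e.2 ≠ 1)).card ≤
      A.card * B.card + B.card * A.card := by
    refine (Finset.card_le_card hsub).trans ((Finset.card_union_le _ _).trans ?_)
    rw [Finset.card_product, Finset.card_product]
  have h2 : A.card * B.card ≤ S.card ^ 2 / 4 := by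
    rw [Nat.le_div_iff_mul_le (by norm_num), ← hAB]
    nlinarith [sq_nonneg ((A.card : ℤ) - B.card), Int.natCast_nonneg A.card,
      (by
        have := sq_nonneg ((A.card : ℤ) - B.card)
        have h4 : (4 * ((A.card : ℤ) * B.card)) ≤ ((A.card : ℤ) + B.card) ^ 2 := by nlinarith
        exact_mod_cast h4 : 4 * (A.card * B.card) ≤ (A.card + B.card) ^ 2)]
  have h3 : B.card * A.card = A.card * B.card := Nat.mul_comm _ _
  omega

/-- the sum over the pairs -/
lemma sum_pairs (S : Finset ℕ) (hS : ∀ p ∈ S, p.Prime) (y X : ℕ) (hy : 1 ≤ y) :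
    ∑ e ∈ S.offDiag, bs (e.1 * e.2) y X ≤
      (2 * (S.card ^ 2 / 4) : ℕ) * (∑ l ∈ (Ioc y X).filter Nat.Prime, (1 : ℝ) / l) +
        (S.card : ℝ) ^ 3 / y := by
  classical
  have hy0 : (0 : ℝ) < y := by exact_mod_cast hy
  have e1 : ∀ e ∈ S.offDiag, bs (e.1 * e.2) y X = ∑ l ∈ (Ioc y X).filter Nat.Prime,
      (if jacobiSym l (e.1 * e.2) ≠ 1 then (1 : ℝ) / l else 0) := by
    intro e _
    unfold bs
    rw [← Finset.sum_filter, Finset.filter_filter]
  rw [Finset.sum_congr rfl e1, Finset.sum_comm]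
  have e2 : ∀ l ∈ (Ioc y X).filter Nat.Prime,
      ∑ e ∈ S.offDiag, (if jacobiSym l (e.1 * e.2) ≠ 1 then (1 : ℝ) / l else 0) ≤
        (2 * (S.card ^ 2 / 4) : ℕ) * ((1 : ℝ) / l) +
          (if l ∈ S then (S.card : ℝ) ^ 2 / y else 0) := by
    intro l hl
    rw [mem_filter, mem_Ioc] at hl
    obtain ⟨⟨hl1, hl2⟩, hlp⟩ := hl
    have hl0 : (0 : ℝ) < l := by exact_mod_cast hlp.pos
    have hll : (1 : ℝ) / l ≤ 1 / y := by
      apply one_div_le_one_div_of_le hy0
      exact_mod_cast hl1.le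
    rw [← Finset.sum_filter, Finset.sum_const, nsmul_eq_mul]
    by_cases hlS : l ∈ S
    · rw [if_pos hlS]
      have h1 : ((S.offDiag.filter (fun e => jacobiSym l (e.1 * e.2) ≠ 1)).card : ℝ) ≤
          (S.card : ℝ) ^ 2 := by
        have h2 : (S.offDiag.filter (fun e => jacobiSym l (e.1 * e.2) ≠ 1)).card ≤ S.card ^ 2 := by
          refine (Finset.card_filter_le _ _).trans ?_
          rw [Finset.offDiag_card, sq]
          exact Nat.sub_le _ _
        exact_mod_cast h2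
      have h3 : ((S.offDiag.filter (fun e => jacobiSym l (e.1 * e.2) ≠ 1)).card : ℝ) * (1 / l) ≤
          (S.card : ℝ) ^ 2 / y := by
        calc _ ≤ (S.card : ℝ) ^ 2 * (1 / y) := by gcongr
          _ = (S.card : ℝ) ^ 2 / y := by ring
      have h4 : 0 ≤ ((2 * (S.card ^ 2 / 4) : ℕ) : ℝ) * (1 / l) := by positivity
      linarith
    · rw [if_neg hlS, add_zero]
      have h1 : (S.offDiag.filter (fun e => jacobiSym l (e.1 * e.2) ≠ 1)) =
          S.offDiag.filter (fun e => jacobiSym l e.1 * jacobiSym l e.2 ≠ 1) := by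
        apply Finset.filter_congr
        intro e he
        rw [mem_offDiag] at he
        have : NeZero e.1 := ⟨(hS _ he.1).ne_zero⟩
        have : NeZero e.2 := ⟨(hS _ he.2.1).ne_zero⟩
        rw [jacobiSym.mul_right]
      rw [h1]
      have h2 := card_pairs S (fun p => jacobiSym l p) (fun p hp =>
        jac_dich hlp (hS p hp) (fun h => hlS (h ▸ hp)))
      have h3 : ((S.offDiag.filter (fun e => jacobiSym l e.1 * jacobiSym l e.2 ≠ 1)).card : ℝ) ≤
          ((2 * (S.card ^ 2 / 4) : ℕ) : ℝ) := by exact_mod_cast h2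
      gcongr
  refine (Finset.sum_le_sum e2).trans ?_
  rw [Finset.sum_add_distrib, ← Finset.mul_sum]
  have e3 : (∑ l ∈ (Ioc y X).filter Nat.Prime, if l ∈ S then (S.card : ℝ) ^ 2 / y else 0) ≤
      (S.card : ℝ) ^ 3 / y := by
    rw [← Finset.sum_filter, Finset.sum_const, nsmul_eq_mul]
    have h6 : (((Ioc y X).filter Nat.Prime).filter (fun l => l ∈ S)).card ≤ S.card :=
      Finset.card_le_card (fun l hl => (mem_filter.1 hl).2)
    have h7 : ((((Ioc y X).filter Nat.Prime).filter (fun l => l ∈ S)).card : ℝ) ≤ S.card := by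
      exact_mod_cast h6
    calc _ ≤ (S.card : ℝ) * ((S.card : ℝ) ^ 2 / y) := by gcongr
      _ = (S.card : ℝ) ^ 3 / y := by ring
  linarith

/-- dichotomy: one prime with trivial symbols, or all symbols are equal -/
lemma dich {n y : ℕ} (hy : 2 ≤ y) (hpass : ∀ b : ℕ, 1 < b → b ≤ y → Passes n b) (hn : 2 ≤ n)
    (S : Finset ℕ) (hSne : S.Nonempty) (hS : ∀ p ∈ S, p.Prime) (hSn : ∀ p ∈ S, p ∣ n) :
    (∀ p ∈ S, y < p) ∧
    ((∃ p ∈ S, ∀ l : ℕ, l.Prime → l ≤ y → jacobiSym l p = 1) ∨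
      (∀ p ∈ S, ∀ q ∈ S, ∀ l : ℕ, l.Prime → l ≤ y → jacobiSym l (p * q) = 1)) := by
  have hbig : ∀ p ∈ S, y < p := by
    intro p hp
    by_contra hcon
    exact not_dvd_of_passes hn (hS p hp) (hSn p hp)
      (hpass p (hS p hp).one_lt (by omega)) (dvd_refl p)
  refine ⟨hbig, ?_⟩
  obtain ⟨q0, hq0, hmin⟩ := Finset.exists_min_image S v2 hSne
  by_cases h : ∃ p ∈ S, v2 q0 < v2 p
  · left
    obtain ⟨p, hp, hv⟩ := h
    refine ⟨p, hp, fun l hl hly => ?_⟩
    have h1 := hbig p hp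
    have h2 := hbig q0 hq0
    exact symbol_one (hpass l hl.one_lt hly) (hS p hp) (hS q0 hq0) (by omega) (by omega)
      (hSn p hp) (hSn q0 hq0) hv
  · right
    push Not at h
    intro p hp q hq l hl hly
    have h1 := hbig p hp
    have h2 := hbig q hq
    have hv : v2 p = v2 q :=
      (le_antisymm (h p hp) (hmin p hp)).trans (le_antisymm (hmin q hq) (h q hq))
    have : NeZero p := ⟨(hS p hp).ne_zero⟩
    have : NeZero q := ⟨(hS q hq).ne_zero⟩
    rw [jacobiSym.mul_right, same_symbol (hpass l hl.one_lt hly) (hS p hp) (hS q hq) (by omega)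
      (by omega) (hSn p hp) (hSn q hq) hv]
    rcases jac_dich hl (hS q hq) (by omega) with h3 | h3 <;> rw [h3] <;> norm_num

/-- one real character -/
lemma single (h : SNG) (κ θ : ℝ) (hκ : 0 < κ) (hθ : θ < 4 * Real.exp (1 / 2)) :
    ∃ y0 : ℕ, ∀ y : ℕ, y0 ≤ y → ∀ N : ℕ, ∀ [NeZero N], y < N →
      Fam κ KR N (jchar N) →
      (∀ l : ℕ, l.Prime → l ≤ y → jacobiSym l N = 1) → (y : ℝ) ^ θ < N := by
  have hKR : ∀ r, 0 ≤ KR r := fun r => by unfold KR; positivity
  obtain ⟨ε, hε0, hε⟩ : ∃ ε : ℝ, 0 < ε ∧ θ * (1 / (4 * Real.exp (1 / 2)) + ε) < 1 := by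
    have he : 0 < 4 * Real.exp (1 / 2) := by positivity
    have h1 : θ * (1 / (4 * Real.exp (1 / 2))) < 1 := by
      rw [mul_one_div, div_lt_one he]; exact hθ
    refine ⟨(1 - θ * (1 / (4 * Real.exp (1 / 2)))) / (2 * (|θ| + 1)), ?_, ?_⟩
    · have := abs_nonneg θ
      apply div_pos <;> linarith
    · have h2 : θ ≤ |θ| := le_abs_self θ
      have h3 := abs_nonneg θ
      set u := θ * (1 / (4 * Real.exp (1 / 2))) with hu
      have h5 : θ * ((1 - u) / (2 * (|θ| + 1))) ≤ (1 - u) / 2 := by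
        rw [mul_div_assoc', div_le_div_iff₀ (by linarith) (by norm_num)]
        nlinarith
      rw [mul_add]
      linarith
  obtain ⟨N0, hN0⟩ := h ε κ KR hε0 hκ hKR
  refine ⟨N0 + 2, fun y hy N _ hyN hF hl => ?_⟩
  by_contra hcon
  push Not at hcon
  have h1 := hN0 N (by omega) (jchar N) hF y (fun l hlp hly => by
    rw [jchar_apply, hl l hlp hly]; norm_num)
  have hy1 : (1 : ℝ) < y := by exact_mod_cast (by omega : 1 < y)
  have he : 0 < 1 / (4 * Real.exp (1 / 2)) + ε := by positivity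
  have h2 : (N : ℝ) ^ (1 / (4 * Real.exp (1 / 2)) + ε) ≤
      (y : ℝ) ^ (θ * (1 / (4 * Real.exp (1 / 2)) + ε)) := by
    rw [Real.rpow_mul (by linarith)]
    exact Real.rpow_le_rpow (by positivity) hcon he.le
  have h3 : (y : ℝ) ^ (θ * (1 / (4 * Real.exp (1 / 2)) + ε)) < (y : ℝ) ^ (1 : ℝ) :=
    Real.rpow_lt_rpow_of_exponent_lt hy1 hε
  rw [Real.rpow_one] at h3
  linarith

/-- `k` prime factors, with explicit constants -/
theorem kfold (hB : BGE) (hs : SNG) (h1 : CS1) (h2 : CS2) (k : ℕ) (hk : 2 ≤ k) (c θ : ℝ)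
    (hc : c * (2 * (2 * (k ^ 2 / 4) : ℕ)) = k * (k - 1)) (hc0 : 0 ≤ c) (hc1 : c ≤ 1) (hθ0 : 0 < θ)
    (hθ : θ < 2 * Real.exp c) :
    ∃ y0 : ℕ, ∀ y : ℕ, y0 ≤ y → ∀ n : ℕ, (∀ b : ℕ, 1 < b → b ≤ y → Passes n b) →
      (n.primeFactors.filter (fun p : ℕ => (p : ℝ) ≤ (y : ℝ) ^ θ)).card < k := by
  have hKR : ∀ r, 0 ≤ KR r := fun r => by unfold KR; positivity
  obtain ⟨C, hC0, hC⟩ := Pool.Agent.Helper923.HMertens.mertens_ratio
  obtain ⟨ρ, hρ⟩ : ∃ ρ : ℝ, ρ = c - Real.log (θ / 2) := ⟨_, rfl⟩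
  have hρ0 : 0 < ρ := by
    rw [hρ, sub_pos, Real.log_lt_iff_lt_exp (by positivity)]
    linarith
  obtain ⟨η, hη⟩ : ∃ η : ℝ, η = min (ρ / 32) (1 / 8) := ⟨_, rfl⟩
  have hη0 : 0 < η := by rw [hη]; exact lt_min (by linarith) (by norm_num)
  have hη1 : η ≤ 1 / 8 := by rw [hη]; exact min_le_right _ _
  have hη2 : η ≤ ρ / 32 := by rw [hη]; exact min_le_left _ _
  obtain ⟨δ, hδ⟩ : ∃ δ : ℝ, δ = min (ρ / 8) (1 / 4) := ⟨_, rfl⟩
  have hδ0 : 0 < δ := by rw [hδ]; exact lt_min (by linarith) (by norm_num)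
  have hδ1 : δ ≤ 1 / 4 := by rw [hδ]; exact min_le_right _ _
  have hδ2 : δ ≤ ρ / 8 := by rw [hδ]; exact min_le_left _ _
  obtain ⟨NB, hNB⟩ := hB η δ (1 / (2 * θ)) KR hη0 hδ0 (by positivity) hKR
  obtain ⟨NL, hNL1, hNL⟩ := TRPaux.large η hη0 hη1
  have h45 : θ < 4 * Real.exp (1 / 2) := by
    have e1 : Real.exp c ≤ Real.exp 1 := Real.exp_le_exp.2 hc1
    have e2 : Real.exp 1 = Real.exp (1 / 2) * Real.exp (1 / 2) := by
      rw [← Real.exp_add]; norm_num
    have e3 : Real.exp (1 / 2) < 2 := by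
      have h4 : Real.exp (1 / 2) ^ 2 = Real.exp 1 := by
        rw [← Real.exp_nat_mul]; norm_num
      have h5 := Real.exp_one_lt_d9
      by_contra hcon
      push Not at hcon
      nlinarith
    have e4 : 0 < Real.exp (1 / 2) := Real.exp_pos _
    nlinarith
  obtain ⟨NS, hNS⟩ := single hs 1 θ one_pos h45
  obtain ⟨NE, hNE⟩ : ∃ NE : ℕ, ∀ y : ℕ, NE ≤ y → C / Real.log y + (k : ℝ) ^ 3 / Real.log y < ρ / 2 := by
    refine ⟨⌈Real.exp ((C + (k : ℝ) ^ 3) / (ρ / 4))⌉₊ + 3, fun y hy => ?_⟩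
    have hey : Real.exp ((C + (k : ℝ) ^ 3) / (ρ / 4)) ≤ y := by
      refine (Nat.le_ceil _).trans ?_
      exact_mod_cast (by omega : ⌈Real.exp ((C + (k : ℝ) ^ 3) / (ρ / 4))⌉₊ ≤ y)
    have hy3 : (3 : ℝ) ≤ y := by exact_mod_cast (by omega : 3 ≤ y)
    have hly0 : 0 < Real.log y := Real.log_pos (by linarith)
    have hly : (C + (k : ℝ) ^ 3) / (ρ / 4) ≤ Real.log y := by
      rw [Real.le_log_iff_exp_le (by linarith)]
      exact hey
    rw [div_le_iff₀ (by linarith)] at hly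
    rw [← add_div, div_lt_iff₀ hly0]
    nlinarith
  refine ⟨NB + NL + NS + NE + 3, fun y hy n hpass => ?_⟩
  by_contra hcon
  push Not at hcon
  obtain ⟨S, hSsub, hScard⟩ := Finset.exists_subset_card_eq hcon
  have hSp : ∀ p ∈ S, p.Prime := fun p hp =>
    Nat.prime_of_mem_primeFactors (mem_filter.1 (hSsub hp)).1
  have hSn : ∀ p ∈ S, p ∣ n := fun p hp =>
    Nat.dvd_of_mem_primeFactors (mem_filter.1 (hSsub hp)).1
  have hSle : ∀ p ∈ S, (p : ℝ) ≤ (y : ℝ) ^ θ := fun p hp => (mem_filter.1 (hSsub hp)).2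
  have hSne : S.Nonempty := Finset.card_pos.1 (by omega)
  have hn2 : 2 ≤ n := by
    obtain ⟨p, hp⟩ := hSne
    have h3 := (mem_filter.1 (hSsub hp)).1
    have h4 : n ≠ 0 := by
      intro h0
      rw [h0] at h3
      simp at h3
    exact (hSp p hp).two_le.trans (Nat.le_of_dvd (by omega) (hSn p hp))
  obtain ⟨hbig, hor⟩ := dich (by omega : 2 ≤ y) hpass hn2 S hSne hSp hSn
  have hy1 : (1 : ℝ) < y := by exact_mod_cast (by omega : 1 < y)
  have hly0 : 0 < Real.log y := Real.log_pos hy1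
  rcases hor with ⟨p, hp, hl⟩ | hall
  · have : NeZero p := ⟨(hSp p hp).ne_zero⟩
    have h5 := hNS y (by omega) p (hbig p hp)
      (h1 1 p (hSp p hp) (by have := hbig p hp; omega) le_rfl) hl
    exact absurd (hSle p hp) (not_le.2 h5)
  · -- all pairs
    set X : ℕ := ⌊(y : ℝ) ^ ((1 / 2 + 4 * η) * θ)⌋₊ with hX
    have hpair : ∀ e ∈ S.offDiag, 1 / 2 - δ ≤ bs (e.1 * e.2) y X := by
      intro e he
      rw [mem_offDiag] at he
      obtain ⟨he1, he2, hne⟩ := he
      have p1 := hSp _ he1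
      have p2 := hSp _ he2
      have b1 := hbig _ he1
      have b2 := hbig _ he2
      have hNe : e.1 * e.2 ≠ 0 := Nat.mul_ne_zero p1.ne_zero p2.ne_zero
      have : NeZero (e.1 * e.2) := ⟨hNe⟩
      have hNle : ((e.1 * e.2 : ℕ) : ℝ) ≤ (y : ℝ) ^ (2 * θ) := by
        push_cast
        rw [two_mul, Real.rpow_add (by linarith)]
        exact mul_le_mul (hSle _ he1) (hSle _ he2) (by positivity) (by positivity)
      have hNk : ((e.1 * e.2 : ℕ) : ℝ) ^ (1 / (2 * θ)) ≤ y := by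
        calc ((e.1 * e.2 : ℕ) : ℝ) ^ (1 / (2 * θ)) ≤ ((y : ℝ) ^ (2 * θ)) ^ (1 / (2 * θ)) :=
              Real.rpow_le_rpow (by positivity) hNle (by positivity)
          _ = y := by
              rw [← Real.rpow_mul (by linarith), mul_one_div_cancel (by positivity),
                Real.rpow_one]
      have b1' : (y : ℝ) ≤ e.1 := by exact_mod_cast b1.le
      have b2' : (y : ℝ) ≤ e.2 := by exact_mod_cast b2.le
      have hF := h2 (1 / (2 * θ)) e.1 e.2 p1 p2 (by omega) (by omega) hne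
        (hNk.trans b1') (hNk.trans b2')
      have hNbig : y ≤ e.1 * e.2 := b1.le.trans (Nat.le_mul_of_pos_right _ p2.pos)
      obtain ⟨g1, g2⟩ := hNL (e.1 * e.2) (by omega)
      have hb := hNB (e.1 * e.2) (by omega) (jchar (e.1 * e.2)) hF
        ⌈((e.1 * e.2 : ℕ) : ℝ) ^ (1 / 4 + η)⌉₊ y (Nat.le_ceil _) (g1.trans g2)
        (fun l hl hly => by
          rw [jchar_apply, hall _ he1 _ he2 l hl hly]; norm_num)
      rw [badSum_eq] at hb
      refine hb.trans (bs_mono _ _ _ _ ?_)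
      rw [hX]
      apply Nat.le_floor
      refine g1.trans ?_
      calc ((e.1 * e.2 : ℕ) : ℝ) ^ (1 / 4 + 2 * η) ≤ ((y : ℝ) ^ (2 * θ)) ^ (1 / 4 + 2 * η) :=
            Real.rpow_le_rpow (by positivity) hNle (by positivity)
        _ = (y : ℝ) ^ ((1 / 2 + 4 * η) * θ) := by
            rw [← Real.rpow_mul (by linarith)]
            congr 1
            ring
    have hsum : (k * (k - 1) : ℝ) * (1 / 2 - δ) ≤ ∑ e ∈ S.offDiag, bs (e.1 * e.2) y X := by
      have h3 : ∑ e ∈ S.offDiag, (1 / 2 - δ) ≤ ∑ e ∈ S.offDiag, bs (e.1 * e.2) y X :=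
        Finset.sum_le_sum hpair
      rw [Finset.sum_const, nsmul_eq_mul, Finset.offDiag_card, hScard,
        Nat.cast_sub (Nat.le_mul_self k)] at h3
      push_cast at h3
      calc (k * (k - 1) : ℝ) * (1 / 2 - δ) = (k * k - k) * (1 / 2 - δ) := by ring
        _ ≤ _ := h3
    have hk2 : (2 : ℝ) ≤ k := by exact_mod_cast hk
    have hkk : 0 < (k * (k - 1) : ℝ) := by nlinarith
    have hyX : y ≤ X := by
      by_contra hcon2
      push Not at hcon2
      have h0 : ∑ e ∈ S.offDiag, bs (e.1 * e.2) y X = 0 := by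
        apply Finset.sum_eq_zero
        intro e _
        unfold bs
        rw [Finset.Ioc_eq_empty (by omega)]
        simp
      rw [h0] at hsum
      nlinarith
    have hXy : Real.log X ≤ ((1 / 2 + 4 * η) * θ) * Real.log y := by
      have hX0 : (0 : ℝ) < X := by exact_mod_cast (by omega : 0 < X)
      have h3 : (X : ℝ) ≤ (y : ℝ) ^ ((1 / 2 + 4 * η) * θ) := Nat.floor_le (by positivity)
      have h4 := Real.log_le_log hX0 h3
      rwa [Real.log_rpow (by linarith)] at h4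
    have hlX : Real.log y ≤ Real.log X :=
      Real.log_le_log (by linarith) (by exact_mod_cast hyX)
    have hm := (abs_le.1 (hC y X (by omega) hyX)).2
    have hsp := sum_pairs S hSp y X (by omega)
    rw [hScard] at hsp
    have hlr : Real.log (Real.log X / Real.log y) ≤ c - ρ + ρ / 4 := by
      have h3 : Real.log X / Real.log y ≤ (1 / 2 + 4 * η) * θ := by
        rw [div_le_iff₀ hly0]; exact hXy
      have h4 : Real.log (Real.log X / Real.log y) ≤ Real.log ((1 / 2 + 4 * η) * θ) :=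
        Real.log_le_log (div_pos (by linarith) hly0) h3
      have h5 : Real.log ((1 / 2 + 4 * η) * θ) = Real.log (1 + 8 * η) + Real.log (θ / 2) := by
        rw [← Real.log_mul (by positivity) (by positivity)]
        congr 1
        ring
      have h6 : Real.log (1 + 8 * η) ≤ 8 * η := by
        have := Real.log_le_sub_one_of_pos (by positivity : 0 < 1 + 8 * η)
        linarith
      have h7 : Real.log (θ / 2) = c - ρ := by rw [hρ]; ring
      linarith
    have hsm := hNE y (by omega)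
    have hD1 : 1 ≤ 2 * (k ^ 2 / 4) := by
      have : 4 ≤ k ^ 2 := by nlinarith
      have : 1 ≤ k ^ 2 / 4 := (Nat.le_div_iff_mul_le (by norm_num)).2 (by omega)
      omega
    obtain ⟨D, hD⟩ : ∃ D : ℝ, D = ((2 * (k ^ 2 / 4) : ℕ) : ℝ) := ⟨_, rfl⟩
    have hD1' : (1 : ℝ) ≤ D := by rw [hD]; exact_mod_cast hD1
    rw [← hD] at hsp hc
    have q1 : (k : ℝ) ^ 3 / y ≤ (k : ℝ) ^ 3 / Real.log y := by
      gcongr
      exact (Real.log_le_sub_one_of_pos (by linarith)).trans (by linarith)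
    have q2 : (k : ℝ) ^ 3 / Real.log y ≤ D * ((k : ℝ) ^ 3 / Real.log y) := by
      have : 0 ≤ (k : ℝ) ^ 3 / Real.log y := by positivity
      nlinarith
    have q3 : (k * (k - 1) : ℝ) * (1 / 2 - δ) ≤
        D * (c - ρ + ρ / 4 + C / Real.log y + (k : ℝ) ^ 3 / Real.log y) := by
      have h8 : ∑ l ∈ (Ioc y X).filter Nat.Prime, (1 : ℝ) / l ≤
          c - ρ + ρ / 4 + C / Real.log y := by linarith
      have h9 : D * ∑ l ∈ (Ioc y X).filter Nat.Prime, (1 : ℝ) / l ≤
          D * (c - ρ + ρ / 4 + C / Real.log y) :=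
        mul_le_mul_of_nonneg_left h8 (by linarith)
      linarith
    have q4 : (k * (k - 1) : ℝ) * (1 / 2 - δ) = D * (c * (1 - 2 * δ)) := by
      rw [← hc]; ring
    rw [q4] at q3
    have q5 : c * (1 - 2 * δ) ≤ c - ρ + ρ / 4 + C / Real.log y + (k : ℝ) ^ 3 / Real.log y :=
      le_of_mul_le_mul_left q3 (by linarith)
    nlinarith

end Pool.Agent.Q75.SW
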