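import Pool.Agent.Q75.SW.Same
import Pool.Agent.H471R4.BW.SMO
import Pool.Agent.H471R4.BW.Hch
import Pool.Agent.Y165.HN.Burg

set_option autoImplicit false

/-! Numbers without small witnesses for the strong test: prime factors of size a power of the
bound. -/

namespace Pool.Agent.Q75.SW

open Finset

open Pool.Agent.H379R2.W (Passes pow_of_passes_dvd)

open Pool.Agent.W57.SW (liars liars_prime liars_sq)

lemma large_pow (e : ℝ) (he : 0 < e) (M : ℝ) : ∃ n0 : ℕ, ∀ n : ℕ, n0 ≤ n → M ≤ (n : ℝ) ^ e := by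
  have t1 : Filter.Tendsto (fun n : ℕ => (n : ℝ) ^ e) Filter.atTop Filter.atTop :=
    (tendsto_rpow_atTop he).comp tendsto_natCast_atTop_atTop
  obtain ⟨n0, hn0⟩ := Filter.eventually_atTop.1 (t1.eventually_ge_atTop M)
  exact ⟨n0, hn0⟩

/-- a smooth number up to `D`, where `D ≤ y ^ a` -/
lemma smooth_le {y D l : ℕ} {a : ℝ} (ha : 0 < a) (hD : (D : ℝ) ≤ (y : ℝ) ^ a)
    (h : (l : ℝ) ≤ (D : ℝ) ^ (1 / a)) : l ≤ y := by
  have h1 : (D : ℝ) ^ (1 / a) ≤ ((y : ℝ) ^ a) ^ (1 / a) :=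
    Real.rpow_le_rpow (by positivity) hD (by positivity)
  rw [← Real.rpow_mul (by positivity), mul_one_div_cancel ha.ne', Real.rpow_one] at h1
  exact_mod_cast h.trans h1

theorem bounded_aux (C : ℝ) (hC : 1 ≤ C) : ∃ K : ℕ, ∀ y n : ℕ, 1 ≤ y →
    (∀ b : ℕ, 1 < b → b ≤ y → Passes n b) →
    (n.primeFactors.filter (fun p : ℕ => (p : ℝ) ≤ (y : ℝ) ^ C)).card ≤ K := by
  classical
  obtain ⟨c, hc, D0, hS⟩ := Pool.Agent.H471R4.BW.smo (1 / (3 * C)) (by positivity)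
    (by rw [div_le_one (by positivity)]; linarith)
  obtain ⟨N1, hN1⟩ := large_pow C (by linarith) (4 / c)
  obtain ⟨y0, hy0⟩ : ∃ y0 : ℕ, y0 = max (max N1 D0) 2 := ⟨_, rfl⟩
  have hy01 : N1 ≤ y0 := by rw [hy0]; exact (le_max_left _ _).trans (le_max_left _ _)
  have hy02 : D0 ≤ y0 := by rw [hy0]; exact (le_max_right _ _).trans (le_max_left _ _)
  have hy03 : 2 ≤ y0 := by rw [hy0]; exact le_max_right _ _
  refine ⟨max (⌊(y0 : ℝ) ^ C⌋₊) (⌊4 / c⌋₊), fun y n hy1 hpass => ?_⟩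
  have hfil : n.primeFactors.filter (fun p : ℕ => (p : ℝ) ≤ (y : ℝ) ^ C) =
      n.primeFactors.filter (fun p : ℕ => p ≤ ⌊(y : ℝ) ^ C⌋₊) := by
    apply Finset.filter_congr
    intro p _
    rw [Nat.le_floor_iff (by positivity)]
  rw [hfil]
  rcases lt_or_ge y y0 with h | h
  · refine le_trans ?_ (le_max_left _ _)
    have h1 : n.primeFactors.filter (fun p : ℕ => p ≤ ⌊(y : ℝ) ^ C⌋₊) ⊆
        Finset.Icc 1 ⌊(y0 : ℝ) ^ C⌋₊ := by
      intro p hp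
      rw [mem_filter] at hp
      rw [mem_Icc]
      refine ⟨(Nat.prime_of_mem_primeFactors hp.1).one_lt.le, hp.2.trans ?_⟩
      apply Nat.floor_le_floor
      apply Real.rpow_le_rpow (by positivity) _ (by linarith)
      exact_mod_cast h.le
    have h2 := card_le_card h1
    rwa [Nat.card_Icc, Nat.add_sub_cancel] at h2
  · refine le_trans ?_ (le_max_right _ _)
    have hy2 : 2 ≤ y := by omega
    have hyR : (1 : ℝ) ≤ y := by exact_mod_cast hy1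
    obtain ⟨D, hD⟩ : ∃ D : ℕ, D = ⌊(y : ℝ) ^ (3 * C)⌋₊ := ⟨_, rfl⟩
    have hD1 : (D : ℝ) ≤ (y : ℝ) ^ (3 * C) := by
      rw [hD]; exact Nat.floor_le (by positivity)
    have hyC : (y : ℝ) ≤ (y : ℝ) ^ (3 * C) := by
      conv_lhs => rw [← Real.rpow_one (y : ℝ)]
      exact Real.rpow_le_rpow_of_exponent_le hyR (by linarith)
    have hDy : y ≤ D := by
      rw [hD]; exact Nat.le_floor hyC
    have hD2 : (y : ℝ) ^ (3 * C) ≤ 2 * D := by
      have h3 := Nat.lt_floor_add_one ((y : ℝ) ^ (3 * C))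
      rw [← hD] at h3
      have h4 : (1 : ℝ) ≤ D := by exact_mod_cast hy1.trans hDy
      linarith
    obtain ⟨B, hB, hBc⟩ := hS D (by omega)
    have hx : (y : ℝ) ^ (3 * C) = ((y : ℝ) ^ C) ^ 2 * (y : ℝ) ^ C := by
      rw [← pow_succ, ← Real.rpow_natCast, ← Real.rpow_mul (by positivity)]
      congr 1
      push_cast
      ring
    have h4c : 4 / c ≤ (y : ℝ) ^ C := hN1 y (by omega)
    rw [div_le_iff₀ hc] at h4c
    have hZ : (⌊(y : ℝ) ^ C⌋₊ : ℝ) ≤ (y : ℝ) ^ C := Nat.floor_le (by positivity)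
    have hBZ : 2 * ⌊(y : ℝ) ^ C⌋₊ ^ 2 ≤ B.card := by
      have h5 : (2 : ℝ) * (⌊(y : ℝ) ^ C⌋₊ : ℝ) ^ 2 ≤ B.card := by
        refine le_trans ?_ hBc
        have h6 : (⌊(y : ℝ) ^ C⌋₊ : ℝ) ^ 2 ≤ ((y : ℝ) ^ C) ^ 2 :=
          pow_le_pow_left₀ (by positivity) hZ 2
        have h7 : 0 ≤ ((y : ℝ) ^ C) ^ 2 := by positivity
        have h8 : c * (y : ℝ) ^ (3 * C) ≤ c * (2 * D) := mul_le_mul_of_nonneg_left hD2 hc.le
        rw [hx] at h8
        have h9 : 4 * ((y : ℝ) ^ C) ^ 2 ≤ c * (((y : ℝ) ^ C) ^ 2 * (y : ℝ) ^ C) := by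
          nlinarith
        linarith
      exact_mod_cast h5
    have hfin := count_le hy2 hpass B (fun s hs => by
      obtain ⟨g1, g2, g3⟩ := hB s hs
      refine ⟨g1, g2, fun l hl hls => ?_⟩
      exact smooth_le (by positivity) hD1 (g3 l hl hls)) hBZ
    rw [Nat.le_floor_iff (by positivity)]
    have h10 : ((n.primeFactors.filter (fun p => p ≤ ⌊(y : ℝ) ^ C⌋₊)).card : ℝ) * B.card ≤
        4 * D := by exact_mod_cast hfin
    rw [le_div_iff₀ hc]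
    have h11 : (0 : ℝ) < D := by exact_mod_cast (by omega : 0 < D)
    have h12 : ((n.primeFactors.filter (fun p => p ≤ ⌊(y : ℝ) ^ C⌋₊)).card : ℝ) * (c * D) ≤
        4 * D := le_trans (mul_le_mul_of_nonneg_left hBc (by positivity)) h10
    by_contra hcon
    push Not at hcon
    nlinarith

/-- for every exponent `C`: boundedly many prime factors `≤ y ^ C` -/
theorem bounded (C : ℝ) : ∃ K : ℕ, ∀ y n : ℕ, 1 ≤ y →
    (∀ b : ℕ, 1 < b → b ≤ y → Passes n b) →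
    (n.primeFactors.filter (fun p : ℕ => (p : ℝ) ≤ (y : ℝ) ^ C)).card ≤ K := by
  obtain ⟨K, hK⟩ := bounded_aux (max C 1) (le_max_right _ _)
  refine ⟨K, fun y n hy hp => le_trans (card_le_card ?_) (hK y n hy hp)⟩
  intro p hp
  rw [mem_filter] at hp ⊢
  refine ⟨hp.1, hp.2.trans ?_⟩
  exact Real.rpow_le_rpow_of_exponent_le (by exact_mod_cast hy) (le_max_left _ _)

/-- for every exponent `C`: the index of the group of the `(n-1)`-st powers is bounded, and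
squares of primes `≤ y ^ C` do not divide `n` -/
theorem index_aux (C : ℝ) (hC : 1 ≤ C) : ∃ K : ℕ, ∀ y n : ℕ, 1 ≤ y →
    (∀ b : ℕ, 1 < b → b ≤ y → Passes n b) → ∀ p ∈ n.primeFactors, (p : ℝ) ≤ (y : ℝ) ^ C →
      p - 1 ≤ K * Nat.gcd (p - 1) (n - 1) := by
  obtain ⟨c, hc, D0, hS⟩ := Pool.Agent.H471R4.BW.smo (1 / C) (by positivity)
    (by rw [div_le_one (by positivity)]; linarith)
  refine ⟨max D0 (⌈1 / c⌉₊), fun y n hy hpass p hp hpy => ?_⟩
  have hpp := Nat.prime_of_mem_primeFactors hp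
  have hpn := Nat.dvd_of_mem_primeFactors hp
  have hn0 : n ≠ 0 := (Nat.mem_primeFactors.1 hp).2.2
  have hn : 2 ≤ n := hpp.two_le.trans (Nat.le_of_dvd (Nat.pos_of_ne_zero hn0) hpn)
  have hp2 := hpp.two_le
  have hg : 1 ≤ Nat.gcd (p - 1) (n - 1) := Nat.gcd_pos_of_pos_left _ (by omega)
  rcases lt_or_ge p D0 with h | h
  · calc p - 1 ≤ D0 := by omega
      _ ≤ max D0 (⌈1 / c⌉₊) * 1 := by rw [mul_one]; exact le_max_left _ _
      _ ≤ _ := Nat.mul_le_mul_left _ hg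
  · obtain ⟨S, hS1, hS2⟩ := hS p h
    have h1 := card_le_liars (by omega) hpn hpass S (fun s hs => by
      obtain ⟨g1, g2, g3⟩ := hS1 s hs
      refine ⟨g1, g2.le, fun l hl hls => ?_⟩
      exact smooth_le (by positivity) hpy (g3 l hl hls))
    have h2 := h1.trans (liars_prime hn hpp)
    have h3 : c * p ≤ (Nat.gcd (p - 1) (n - 1) : ℝ) := hS2.trans (by exact_mod_cast h2)
    have h4 : (p : ℝ) ≤ 1 / c * (Nat.gcd (p - 1) (n - 1) : ℝ) := by
      rw [one_div, inv_mul_eq_div, le_div_iff₀ hc]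
      linarith
    have h5 : (p : ℝ) ≤ (⌈1 / c⌉₊ : ℝ) * (Nat.gcd (p - 1) (n - 1) : ℝ) :=
      h4.trans (mul_le_mul_of_nonneg_right (Nat.le_ceil _) (by positivity))
    have h6 : p ≤ ⌈1 / c⌉₊ * Nat.gcd (p - 1) (n - 1) := by exact_mod_cast h5
    calc p - 1 ≤ ⌈1 / c⌉₊ * Nat.gcd (p - 1) (n - 1) := by omega
      _ ≤ _ := Nat.mul_le_mul_right _ (le_max_right _ _)

theorem index (C : ℝ) : ∃ K : ℕ, ∀ y n : ℕ, 1 ≤ y →
    (∀ b : ℕ, 1 < b → b ≤ y → Passes n b) → ∀ p ∈ n.primeFactors, (p : ℝ) ≤ (y : ℝ) ^ C →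
      p - 1 ≤ K * Nat.gcd (p - 1) (n - 1) := by
  obtain ⟨K, hK⟩ := index_aux (max C 1) (le_max_right _ _)
  refine ⟨K, fun y n hy hp p hpn hpy => hK y n hy hp p hpn (hpy.trans ?_)⟩
  exact Real.rpow_le_rpow_of_exponent_le (by exact_mod_cast hy) (le_max_left _ _)

theorem sqfree_aux (C : ℝ) (hC : 1 ≤ C) : ∃ y0 : ℕ, ∀ y n : ℕ, y0 ≤ y → n ≠ 0 →
    (∀ b : ℕ, 1 < b → b ≤ y → Passes n b) → ∀ p : ℕ, p.Prime → (p : ℝ) ≤ (y : ℝ) ^ C →
      ¬ p ^ 2 ∣ n := by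
  obtain ⟨c, hc, D0, hS⟩ := Pool.Agent.H471R4.BW.smo (1 / (2 * C)) (by positivity)
    (by rw [div_le_one (by positivity)]; linarith)
  refine ⟨max (max D0 1) (⌈1 / c⌉₊), fun y n hy hn0 hpass p hpp hpy hp2n => ?_⟩
  have hy1 : D0 ≤ y := ((le_max_left _ _).trans (le_max_left _ _)).trans hy
  have hy2 : 1 ≤ y := ((le_max_right _ _).trans (le_max_left _ _)).trans hy
  have hy3 : ⌈1 / c⌉₊ ≤ y := (le_max_right _ _).trans hy
  have hpn : p ∣ n := (dvd_pow_self p two_ne_zero).trans hp2n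
  have hp : p ∈ n.primeFactors := Nat.mem_primeFactors.2 ⟨hpp, hpn, hn0⟩
  have hn : 2 ≤ n := hpp.two_le.trans (Nat.le_of_dvd (Nat.pos_of_ne_zero hn0) hpn)
  have hyp := big_of_pass hpass hp
  have hpD : D0 ≤ p ^ 2 := by nlinarith
  obtain ⟨S, hS1, hS2⟩ := hS (p ^ 2) hpD
  have h0 : ((p ^ 2 : ℕ) : ℝ) ≤ (y : ℝ) ^ (2 * C) := by
    push_cast
    calc (p : ℝ) ^ 2 ≤ ((y : ℝ) ^ C) ^ 2 := pow_le_pow_left₀ (by positivity) hpy 2
      _ = (y : ℝ) ^ (2 * C) := by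
        rw [← Real.rpow_natCast, ← Real.rpow_mul (by positivity)]
        congr 1
        push_cast
        ring
  have h1 := card_le_liars (Nat.one_le_pow _ _ hpp.pos) hp2n hpass S (fun s hs => by
    obtain ⟨g1, g2, g3⟩ := hS1 s hs
    refine ⟨g1, g2.le, fun l hl hls => ?_⟩
    exact smooth_le (by positivity) h0 (g3 l hl hls))
  have h2 := h1.trans (liars_sq hn hpp hpn)
  have h3 : (S.card : ℝ) ≤ p := by exact_mod_cast (by omega : S.card ≤ p)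
  have h4 : (1 / c : ℝ) < p := by
    refine lt_of_le_of_lt (Nat.le_ceil _) ?_
    exact_mod_cast (by omega : ⌈1 / c⌉₊ < p)
  rw [div_lt_iff₀ hc] at h4
  push_cast at hS2
  have hpR : (0 : ℝ) < p := by exact_mod_cast hpp.pos
  nlinarith

theorem sqfree (C : ℝ) : ∃ y0 : ℕ, ∀ y n : ℕ, y0 ≤ y → n ≠ 0 →
    (∀ b : ℕ, 1 < b → b ≤ y → Passes n b) → ∀ p : ℕ, p.Prime → (p : ℝ) ≤ (y : ℝ) ^ C →
      ¬ p ^ 2 ∣ n := by
  obtain ⟨y0, h⟩ := sqfree_aux (max C 1) (le_max_right _ _)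
  refine ⟨max y0 1, fun y n hy hn hp p hpp hpy => h y n ((le_max_left _ _).trans hy) hn hp p hpp
    (hpy.trans ?_)⟩
  have : 1 ≤ y := (le_max_right _ _).trans hy
  exact Real.rpow_le_rpow_of_exponent_le (by exact_mod_cast this) (le_max_left _ _)

/-- Korselt's condition for the prime factors `≤ y ^ θ`, `θ < 4 √e` -/
theorem korselt (θ : ℝ) (hθ : θ < 4 * Real.exp (1 / 2)) : ∃ y0 : ℕ, ∀ y n : ℕ, y0 ≤ y →
    (∀ b : ℕ, 1 < b → b ≤ y → Passes n b) → ∀ p ∈ n.primeFactors, (p : ℝ) ≤ (y : ℝ) ^ θ →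
      p - 1 ∣ n - 1 := by
  obtain ⟨ε, hε0, hε⟩ : ∃ ε : ℝ, 0 < ε ∧ θ * (1 / (4 * Real.exp (1 / 2)) + ε) < 1 := by
    have he : 0 < 4 * Real.exp (1 / 2) := by positivity
    have h1 : θ * (1 / (4 * Real.exp (1 / 2))) < 1 := by
      rw [mul_one_div, div_lt_one he]; exact hθ
    refine ⟨(1 - θ * (1 / (4 * Real.exp (1 / 2)))) / (2 * (|θ| + 1)), ?_, ?_⟩
    · have := abs_nonneg θ
      apply div_pos <;> linarith
    · have h2 : θ ≤ |θ| := le_abs_self θ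
      have h3 := abs_nonneg θ
      set u := θ * (1 / (4 * Real.exp (1 / 2))) with hu
      have h5 : θ * ((1 - u) / (2 * (|θ| + 1))) ≤ (1 - u) / 2 := by
        rw [mul_div_assoc', div_le_div_iff₀ (by linarith) (by norm_num)]
        nlinarith
      rw [mul_add]
      linarith
  obtain ⟨q0, hq0⟩ := Pool.Agent.Y165.HN.burg ε hε0
  refine ⟨q0 + 2, fun y n hy hpass p hp hpy => ?_⟩
  have hpp := Nat.prime_of_mem_primeFactors hp
  have hpn := Nat.dvd_of_mem_primeFactors hp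
  have hyp := big_of_pass hpass hp
  haveI : Fact p.Prime := ⟨hpp⟩
  by_contra hcon
  have hp2 := hpp.two_le
  obtain ⟨g, hg⟩ : ∃ g, g = Nat.gcd (p - 1) (n - 1) := ⟨_, rfl⟩
  have hgd : g ∣ p - 1 := by rw [hg]; exact Nat.gcd_dvd_left _ _
  have hgn : g ∣ n - 1 := by rw [hg]; exact Nat.gcd_dvd_right _ _
  have hgl : g < p - 1 := by
    refine lt_of_le_of_ne (Nat.le_of_dvd (by omega) hgd) ?_
    intro h
    rw [h] at hgn
    exact hcon hgn
  obtain ⟨t, _, _, χ, hχ, _, hχ1⟩ := Pool.Agent.H471R4.BW.hch p g hgd hgl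
  have h1 := hq0 p (by omega) hpp χ hχ y (fun l hl hly => by
    apply hχ1
    rw [hg]
    have hl0 : (l : ZMod p) ≠ 0 := by
      intro h0
      rw [ZMod.natCast_eq_zero_iff] at h0
      have := Nat.le_of_dvd hl.pos h0
      omega
    exact pow_gcd_eq_one.mpr ⟨ZMod.pow_card_sub_one_eq_one hl0,
      pow_of_passes_dvd (hpass l hl.one_lt hly) hpn⟩)
  have hy1 : (1 : ℝ) < y := by exact_mod_cast (by omega : 1 < y)
  have he : 0 < 1 / (4 * Real.exp (1 / 2)) + ε := by positivity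
  have h2 : (p : ℝ) ^ (1 / (4 * Real.exp (1 / 2)) + ε) ≤
      (y : ℝ) ^ (θ * (1 / (4 * Real.exp (1 / 2)) + ε)) := by
    rw [Real.rpow_mul (by linarith)]
    exact Real.rpow_le_rpow (by positivity) hpy he.le
  have h3 : (y : ℝ) ^ (θ * (1 / (4 * Real.exp (1 / 2)) + ε)) < (y : ℝ) ^ (1 : ℝ) :=
    Real.rpow_lt_rpow_of_exponent_lt hy1 hε
  rw [Real.rpow_one] at h3
  linarith

end Pool.Agent.Q75.SW
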