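import Pool.Agent.H379R2.W.Strong
import Pool.Agent.H591R2.Char
import Pool.Agent.W57.SW.GroupSq

set_option autoImplicit false

/-! Numbers without small witnesses for the strong test: all symbols `(s / p)` of smooth numbers
`s` agree for the prime factors `p` of one of two classes, and this happens for few primes only. -/

namespace Pool.Agent.Q75.SW

open Finset

open Pool.Agent.H379R2.W (Passes v2 same_symbol symbol_one not_dvd_of_passes pow_of_passes_dvd)

/-- many arguments at which all symbols agree -/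
lemma same_le (S B : Finset ℕ) (Z x : ℕ) (hS : ∀ p ∈ S, Odd p ∧ Squarefree p ∧ p ≤ Z)
    (hB : ∀ q ∈ B, q < x ∧ ∃ e : ℤ, e * e = 1 ∧ ∀ p ∈ S, jacobiSym q p = e) :
    (S.card : ℤ) * (B.card - (Z : ℤ) ^ 2) ≤ x := by
  set g : ℕ → ℤ := fun n => ∑ p ∈ S, jacobiSym n p with hg
  have h1 : (B.card : ℤ) * (S.card : ℤ) ^ 2 ≤ ∑ n ∈ range x, g n ^ 2 := by
    have e1 : ∑ q ∈ B, g q ^ 2 = (B.card : ℤ) * (S.card : ℤ) ^ 2 := by
      have e2 : ∀ q ∈ B, g q ^ 2 = (S.card : ℤ) ^ 2 := by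
        intro q hq
        obtain ⟨_, e, he, h⟩ := hB q hq
        simp only [hg]
        rw [Finset.sum_congr rfl h, sum_const, nsmul_eq_mul]
        calc ((S.card : ℤ) * e) ^ 2 = (S.card : ℤ) ^ 2 * (e * e) := by ring
          _ = _ := by rw [he, mul_one]
      rw [Finset.sum_congr rfl e2, sum_const, nsmul_eq_mul]
    rw [← e1]
    exact sum_le_sum_of_subset_of_nonneg (fun q hq => mem_range.2 (hB q hq).1)
      (fun _ _ _ => sq_nonneg _)
  have h2 : ∑ n ∈ range x, g n ^ 2 =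
      ∑ p ∈ S, ∑ p' ∈ S, ∑ n ∈ range x, jacobiSym n p * jacobiSym n p' := by
    have e1 : ∀ n, g n ^ 2 = ∑ p ∈ S, ∑ p' ∈ S, jacobiSym n p * jacobiSym n p' := by
      intro n
      rw [pow_two, hg]
      simp only
      rw [sum_mul_sum]
    simp_rw [e1]
    rw [sum_comm]
    apply sum_congr rfl
    intro d _
    rw [sum_comm]
  have h3 : ∀ p ∈ S, ∀ p' ∈ S, ∑ n ∈ range x, jacobiSym n p * jacobiSym n p' ≤
      (if p = p' then (x : ℤ) else 0) + (Z : ℤ) ^ 2 := by
    intro p hp p' hp'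
    by_cases h : p = p'
    · subst h
      rw [if_pos rfl]
      have h7 : ∑ n ∈ range x, jacobiSym n p * jacobiSym n p ≤ x := by
        calc ∑ n ∈ range x, jacobiSym n p * jacobiSym n p ≤ ∑ n ∈ range x, 1 := by
              apply sum_le_sum
              intro n _
              rcases jacobiSym.trichotomy n p with h | h | h <;> rw [h] <;> simp
          _ = x := by simp
      have : (0 : ℤ) ≤ (Z : ℤ) ^ 2 := by positivity
      linarith
    · rw [if_neg h, zero_add]
      have h7 := Pool.Agent.H591R2.partial_sum_mul (hS p hp).1 (hS p' hp').1 (hS p hp).2.1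
        (hS p' hp').2.1 h x
      have h8 : ((p : ℤ) * p') ≤ (Z : ℤ) ^ 2 := by
        have := Nat.mul_le_mul (hS p hp).2.2 (hS p' hp').2.2
        rw [pow_two]
        exact_mod_cast this
      exact ((le_abs_self _).trans h7).trans h8
  have h4 : ∑ n ∈ range x, g n ^ 2 ≤ S.card * x + (S.card : ℤ) ^ 2 * (Z : ℤ) ^ 2 := by
    rw [h2]
    calc _ ≤ ∑ p ∈ S, ∑ p' ∈ S, ((if p = p' then (x : ℤ) else 0) + (Z : ℤ) ^ 2) :=
          sum_le_sum fun p hp => sum_le_sum fun p' hp' => h3 p hp p' hp'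
      _ = _ := by
          simp_rw [sum_add_distrib]
          congr 1
          · rw [Finset.sum_congr rfl (fun p hp => by
              rw [sum_ite_eq, if_pos hp] : ∀ p ∈ S, (∑ p' ∈ S, if p = p' then (x : ℤ) else 0) = x)]
            rw [sum_const, nsmul_eq_mul]
          · simp only [sum_const, nsmul_eq_mul]
            ring
  rcases Nat.eq_zero_or_pos S.card with h0 | h0
  · rw [h0]
    simp
  · have h5 : (0 : ℤ) < S.card := by exact_mod_cast h0
    have h6 : (S.card : ℤ) * ((S.card : ℤ) * (B.card - (Z : ℤ) ^ 2)) ≤ S.card * x := by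
      nlinarith
    exact le_of_mul_le_mul_left h6 h5

lemma jac_eq {p p' y : ℕ}
    (h : ∀ l : ℕ, l.Prime → l ≤ y → jacobiSym l p = jacobiSym l p') :
    ∀ s : ℕ, 1 ≤ s → (∀ l : ℕ, l.Prime → l ∣ s → l ≤ y) → jacobiSym s p = jacobiSym s p' := by
  intro s
  induction s using Nat.strong_induction_on with
  | _ s ih =>
    intro hs hp
    rcases eq_or_lt_of_le hs with h1 | h1
    · rw [← h1]; simp
    · have hmp := Nat.minFac_prime (show s ≠ 1 by omega)
      obtain ⟨r, hr⟩ := Nat.minFac_dvd s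
      have hr0 : 1 ≤ r := by
        rcases Nat.eq_zero_or_pos r with h0 | h0
        · rw [h0, mul_zero] at hr; omega
        · exact h0
      have hlt : r < s := by
        rw [hr]; exact lt_mul_of_one_lt_left hr0 hmp.one_lt
      have h2 := ih r hlt hr0 fun p hpp hpr =>
        hp p hpp (hpr.trans ⟨s.minFac, by rw [mul_comm]; exact hr⟩)
      have h3 := h _ hmp (hp _ hmp (Nat.minFac_dvd s))
      rw [hr]
      push_cast
      rw [jacobiSym.mul_left, jacobiSym.mul_left, h2, h3]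

lemma jac_sq {p y s : ℕ} (hp : p.Prime) (hy : y < p) (hs : 1 ≤ s)
    (h : ∀ l : ℕ, l.Prime → l ∣ s → l ≤ y) : jacobiSym s p * jacobiSym s p = 1 := by
  rw [← pow_two]
  apply jacobiSym.sq_one
  rw [Int.gcd_natCast_natCast]
  rw [Nat.gcd_comm]
  rw [← Nat.coprime_iff_gcd_eq_one, hp.coprime_iff_not_dvd]
  intro hps
  have := h p hp hps
  omega

/-- prime factors of a number which passes the test for all `b ≤ y` -/
lemma big_of_pass {n y : ℕ} (hpass : ∀ b : ℕ, 1 < b → b ≤ y → Passes n b) {p : ℕ}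
    (hp : p ∈ n.primeFactors) : y < p := by
  have hpp := Nat.prime_of_mem_primeFactors hp
  have hpn := Nat.dvd_of_mem_primeFactors hp
  have hn0 : n ≠ 0 := (Nat.mem_primeFactors.1 hp).2.2
  have hn : 2 ≤ n := hpp.two_le.trans (Nat.le_of_dvd (Nat.pos_of_ne_zero hn0) hpn)
  by_contra hcon
  exact not_dvd_of_passes hn hpp hpn (hpass p hpp.one_lt (by omega)) (dvd_refl p)

/-- the number of the prime factors up to `Z` -/
theorem count_le {n y Z x : ℕ} (hy : 2 ≤ y)
    (hpass : ∀ b : ℕ, 1 < b → b ≤ y → Passes n b)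
    (B : Finset ℕ) (hB : ∀ s ∈ B, 1 ≤ s ∧ s < x ∧ ∀ l : ℕ, l.Prime → l ∣ s → l ≤ y)
    (hBZ : 2 * Z ^ 2 ≤ B.card) :
    (n.primeFactors.filter (fun p => p ≤ Z)).card * B.card ≤ 4 * x := by
  classical
  obtain ⟨S, hS⟩ : ∃ S, S = n.primeFactors.filter (fun p => p ≤ Z) := ⟨_, rfl⟩
  rw [← hS]
  rcases S.eq_empty_or_nonempty with h0 | hne
  · rw [h0]; simp
  have hSp : ∀ p ∈ S, p.Prime ∧ p ∣ n ∧ p ≤ Z ∧ y < p := by
    intro p hp
    rw [hS, mem_filter] at hp
    exact ⟨Nat.prime_of_mem_primeFactors hp.1, Nat.dvd_of_mem_primeFactors hp.1, hp.2,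
      big_of_pass hpass hp.1⟩
  have hodd : ∀ p ∈ S, Odd p ∧ Squarefree p ∧ p ≤ Z := by
    intro p hp
    obtain ⟨h1, _, h3, h4⟩ := hSp p hp
    exact ⟨h1.odd_of_ne_two (by omega), h1.prime.squarefree, h3⟩
  obtain ⟨q0, hq0, hmin⟩ := Finset.exists_min_image S v2 hne
  have part : ∀ T : Finset ℕ, T ⊆ S → (∀ p ∈ T, ∀ p' ∈ T, ∀ l : ℕ, l.Prime → l ≤ y →
      jacobiSym l p = jacobiSym l p') → T.card * B.card ≤ 2 * x := by
    intro T hT hsame
    rcases T.eq_empty_or_nonempty with h0 | ⟨t0, ht0⟩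
    · rw [h0]; simp
    have h1 := same_le T B Z x (fun p hp => hodd p (hT hp)) (fun q hq => by
      obtain ⟨g1, g2, g3⟩ := hB q hq
      refine ⟨g2, jacobiSym q t0, jac_sq (hSp t0 (hT ht0)).1 (hSp t0 (hT ht0)).2.2.2 g1 g3, ?_⟩
      intro p hp
      exact jac_eq (hsame p hp t0 ht0) q g1 g3)
    have h2 : (2 : ℤ) * (Z : ℤ) ^ 2 ≤ B.card := by exact_mod_cast hBZ
    have h3 : (0 : ℤ) ≤ T.card := by positivity
    have h4 : (T.card : ℤ) * B.card ≤ 2 * x := by nlinarith
    exact_mod_cast h4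
  have hA := part (S.filter (fun p => v2 p = v2 q0)) (filter_subset _ _) (by
    intro p hp p' hp' l hl hly
    rw [mem_filter] at hp hp'
    obtain ⟨h1, h2, _, h4⟩ := hSp p hp.1
    obtain ⟨g1, g2, _, g4⟩ := hSp p' hp'.1
    exact same_symbol (hpass l hl.one_lt hly) h1 g1 (by omega) (by omega) h2 g2
      (hp.2.trans hp'.2.symm))
  have hBb := part (S.filter (fun p => ¬ v2 p = v2 q0)) (filter_subset _ _) (by
    intro p hp p' hp' l hl hly
    rw [mem_filter] at hp hp'
    obtain ⟨h1, h2, _, h4⟩ := hSp p hp.1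
    obtain ⟨g1, g2, _, g4⟩ := hSp p' hp'.1
    obtain ⟨k1, k2, _, k4⟩ := hSp q0 hq0
    have m1 := hmin p hp.1
    have m2 := hmin p' hp'.1
    rw [symbol_one (hpass l hl.one_lt hly) h1 k1 (by omega) (by omega) h2 k2
        (lt_of_le_of_ne m1 (Ne.symm hp.2)),
      symbol_one (hpass l hl.one_lt hly) g1 k1 (by omega) (by omega) g2 k2
        (lt_of_le_of_ne m2 (Ne.symm hp'.2))])
  have hcard := Finset.card_filter_add_card_filter_not (s := S) (fun p => v2 p = v2 q0)
  rw [← hcard, add_mul]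
  omega

open Pool.Agent.W57.SW (liars liars_prime liars_sq pow_eq_one_of_primes)

/-- smooth numbers are in the group of the `(n-1)`-st roots of unity -/
lemma card_le_liars {n y D : ℕ} (hD : 1 ≤ D) (hDn : D ∣ n)
    (hpass : ∀ b : ℕ, 1 < b → b ≤ y → Passes n b) (S : Finset ℕ)
    (hS : ∀ s ∈ S, 1 ≤ s ∧ s ≤ D ∧ ∀ l : ℕ, l.Prime → l ∣ s → l ≤ y) :
    S.card ≤ liars n D := by
  have : NeZero D := ⟨by omega⟩
  have hmem : ∀ s ∈ S, (s : ZMod D) ^ (n - 1) = 1 := by
    intro s hs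
    obtain ⟨h1, h2, h3⟩ := hS s hs
    refine pow_eq_one_of_primes s h1 fun p hp hps => ?_
    exact pow_of_passes_dvd (hpass p hp.one_lt (h3 p hp hps)) hDn
  unfold liars
  have hinj : Function.Injective (fun s : S => (⟨((s : ℕ) : ZMod D), hmem s s.2⟩ :
      {z : ZMod D // z ^ (n - 1) = 1})) := by
    intro s s' hss
    have h1 : ((s : ℕ) : ZMod D) = ((s' : ℕ) : ZMod D) := congrArg Subtype.val hss
    rw [ZMod.natCast_eq_natCast_iff] at h1
    obtain ⟨a1, a2, _⟩ := hS s s.2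
    obtain ⟨b1, b2, _⟩ := hS s' s'.2
    apply Subtype.ext
    have h2 : ((s : ℕ) - 1) ≡ ((s' : ℕ) - 1) [MOD D] := by
      have e1 : (s : ℕ) = ((s : ℕ) - 1) + 1 := by omega
      have e2 : (s' : ℕ) = ((s' : ℕ) - 1) + 1 := by omega
      rw [e1, e2] at h1
      exact Nat.ModEq.add_right_cancel' 1 h1
    have h3 := Nat.ModEq.eq_of_lt_of_lt h2 (by omega) (by omega)
    omega
  have h1 := Nat.card_le_card_of_injective _ hinj
  rw [Nat.card_eq_fintype_card, Fintype.card_coe] at h1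
  exact h1

end Pool.Agent.Q75.SW
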