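import Pool.Agent.Q75.SW.Pairs

set_option autoImplicit false

/-! Small witnesses for the strong test: two and three prime factors, with their products. -/

namespace Pool.Agent.Q75.SW

open Finset Pool.Agent.H471R4.BW

open Pool.Agent.H379R2.W (Passes v2 same_symbol symbol_one not_dvd_of_passes)

lemma six_lt : (6 : ℝ) < 4 * Real.exp (1 / 2) := by
  have h4 : Real.exp (1 / 2) ^ 2 = Real.exp 1 := by
    rw [← Real.exp_nat_mul]; norm_num
  have h5 := Real.exp_one_gt_d9
  by_contra hcon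
  push Not at hcon
  have h6 : 0 < Real.exp (1 / 2) := Real.exp_pos _
  nlinarith

lemma lt_eight : 4 * Real.exp (1 / 2) < 8 := by
  have h4 : Real.exp (1 / 2) ^ 2 = Real.exp 1 := by
    rw [← Real.exp_nat_mul]; norm_num
  have h5 := Real.exp_one_lt_d9
  by_contra hcon
  push Not at hcon
  nlinarith

lemma lt_72 : 16 * Real.exp (3 / 2) < 72 := by
  have h4 : Real.exp (3 / 2) ^ 2 = Real.exp 1 ^ 3 := by
    rw [← Real.exp_nat_mul, ← Real.exp_nat_mul]; norm_num
  have h5 := Real.exp_one_lt_d9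
  have h7 : Real.exp 1 ^ 3 < (2.7182818286 : ℝ) ^ 3 := by gcongr
  have h8 : (2.7182818286 : ℝ) ^ 3 ≤ 20.1 := by norm_num
  have h9 := h7.trans_le h8
  rw [← h4] at h9
  by_contra hcon
  push Not at hcon
  nlinarith

theorem pairProd (hs : SNG) (h1 : CS1) (h2 : CS2) (θ : ℝ) (hθ : θ < 4 * Real.exp (1 / 2)) :
    ∃ y0 : ℕ, ∀ y : ℕ, y0 ≤ y → ∀ n : ℕ, (∀ b : ℕ, 1 < b → b ≤ y → Passes n b) →
      ∀ p ∈ n.primeFactors, ∀ q ∈ n.primeFactors, p ≠ q →
        (y : ℝ) ^ θ < ((p * q : ℕ) : ℝ) := by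
  obtain ⟨NS, hNS⟩ := single hs (1 / 8) θ (by norm_num) hθ
  refine ⟨NS + 3, fun y hy n hpass p hp q hq hpq => ?_⟩
  by_contra hcon
  push Not at hcon
  have pp := Nat.prime_of_mem_primeFactors hp
  have pq := Nat.prime_of_mem_primeFactors hq
  have hn0 : n ≠ 0 := (Nat.mem_primeFactors.1 hp).2.2
  have hn2 : 2 ≤ n :=
    pp.two_le.trans (Nat.le_of_dvd (by omega) (Nat.dvd_of_mem_primeFactors hp))
  have hSp : ∀ s ∈ ({p, q} : Finset ℕ), s.Prime := by
    intro s hs'
    simp only [mem_insert, mem_singleton] at hs'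
    rcases hs' with rfl | rfl <;> assumption
  have hSn : ∀ s ∈ ({p, q} : Finset ℕ), s ∣ n := by
    intro s hs'
    simp only [mem_insert, mem_singleton] at hs'
    rcases hs' with rfl | rfl
    · exact Nat.dvd_of_mem_primeFactors hp
    · exact Nat.dvd_of_mem_primeFactors hq
  obtain ⟨hbig, hor⟩ := dich (by omega : 2 ≤ y) hpass hn2 {p, q} ⟨p, by simp⟩ hSp hSn
  have bp := hbig p (by simp)
  have bq := hbig q (by simp)
  have hy1 : (1 : ℝ) < y := by exact_mod_cast (by omega : 1 < y)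
  rcases hor with ⟨s, hs', hl⟩ | hall
  · have ps := hSp s hs'
    have bs' := hbig s hs'
    have : NeZero s := ⟨ps.ne_zero⟩
    have h5 := hNS y (by omega) s bs' (h1 (1 / 8) s ps (by omega) (by norm_num)) hl
    have h6 : s ≤ p * q := by
      simp only [mem_insert, mem_singleton] at hs'
      rcases hs' with rfl | rfl
      · exact Nat.le_mul_of_pos_right _ pq.pos
      · exact Nat.le_mul_of_pos_left _ pp.pos
    have h7 : (s : ℝ) ≤ ((p * q : ℕ) : ℝ) := by exact_mod_cast h6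
    linarith
  · have : NeZero (p * q) := ⟨Nat.mul_ne_zero pp.ne_zero pq.ne_zero⟩
    have hNk : ((p * q : ℕ) : ℝ) ^ (1 / 8 : ℝ) ≤ y := by
      have h8 := lt_eight
      calc ((p * q : ℕ) : ℝ) ^ (1 / 8 : ℝ) ≤ ((y : ℝ) ^ (8 : ℝ)) ^ (1 / 8 : ℝ) := by
            apply Real.rpow_le_rpow (by positivity) _ (by norm_num)
            exact hcon.trans (Real.rpow_le_rpow_of_exponent_le hy1.le (by linarith))
        _ = y := by
            rw [← Real.rpow_mul (by linarith)]; norm_num
    have bp' : (y : ℝ) ≤ p := by exact_mod_cast bp.le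
    have bq' : (y : ℝ) ≤ q := by exact_mod_cast bq.le
    have hyN : y < p * q := bp.trans_le (Nat.le_mul_of_pos_right _ pq.pos)
    have h5 := hNS y (by omega) (p * q) hyN
      (h2 (1 / 8) p q pp pq (by omega) (by omega) hpq (hNk.trans bp') (hNk.trans bq'))
      (hall p (by simp) q (by simp))
    linarith

theorem triple (hT : TRP) (hs : SNG) (h1 : CS1) (h2 : CS2) (ρ : ℝ)
    (hρ : ρ < 16 * Real.exp (3 / 2)) :
    ∃ y0 : ℕ, ∀ y : ℕ, y0 ≤ y → ∀ n : ℕ, (∀ b : ℕ, 1 < b → b ≤ y → Passes n b) →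
      ∀ p ∈ n.primeFactors, ∀ q ∈ n.primeFactors, ∀ r ∈ n.primeFactors, p < q → q < r →
        ρ * (Real.log y) ^ 2 < Real.log (p * r) * Real.log (q * r) := by
  have hKR : ∀ r, 0 ≤ KR r := fun r => by unfold KR; positivity
  obtain ⟨ρ', hρ'⟩ : ∃ ρ' : ℝ, ρ' = max ρ 1 := ⟨_, rfl⟩
  have hρ1 : 1 ≤ ρ' := by rw [hρ']; exact le_max_right _ _
  have hρρ : ρ ≤ ρ' := by rw [hρ']; exact le_max_left _ _
  have hρ16 : ρ' < 16 * Real.exp (3 / 2) := by
    rw [hρ']
    refine max_lt hρ ?_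
    have : 1 ≤ Real.exp (3 / 2) := Real.one_le_exp (by norm_num)
    linarith
  obtain ⟨τ, hτ⟩ : ∃ τ : ℝ, τ = Real.log 16 + 3 / 2 - Real.log ρ' := ⟨_, rfl⟩
  have hτ0 : 0 < τ := by
    have h3 := Real.log_lt_log (by linarith) hρ16
    rw [Real.log_mul (by norm_num) (Real.exp_pos _).ne', Real.log_exp] at h3
    rw [hτ]; linarith
  have hlt : Real.exp (-(3 / 2) + τ / 2) / 16 * ρ' < 1 := by
    rw [div_mul_eq_mul_div, div_lt_one (by norm_num),
      ← Real.log_lt_log_iff (by positivity) (by norm_num),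
      Real.log_mul (Real.exp_pos _).ne' (by linarith), Real.log_exp]
    have : Real.log ρ' = Real.log 16 + 3 / 2 - τ := by rw [hτ]; ring
    linarith
  obtain ⟨NT, hNT⟩ := hT (τ / 2) (1 / 18) KR (by linarith) (by norm_num) hKR
  obtain ⟨NS, hNS⟩ := single hs (1 / 18) 6 (by norm_num) six_lt
  refine ⟨NS + NT + 3, fun y hy n hpass p hp q hq r hr hpq hqr => ?_⟩
  by_contra hcon
  push Not at hcon
  have pp := Nat.prime_of_mem_primeFactors hp
  have pq := Nat.prime_of_mem_primeFactors hq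
  have pr := Nat.prime_of_mem_primeFactors hr
  have hn0 : n ≠ 0 := (Nat.mem_primeFactors.1 hp).2.2
  have hn2 : 2 ≤ n :=
    pp.two_le.trans (Nat.le_of_dvd (by omega) (Nat.dvd_of_mem_primeFactors hp))
  obtain ⟨hyp, -, hor⟩ := cse2 n y (by omega) (by omega) hpass p q r pp pq pr hpq hqr
    (Nat.dvd_of_mem_primeFactors hp) (Nat.dvd_of_mem_primeFactors hq)
    (Nat.dvd_of_mem_primeFactors hr)
  have hy1 : (1 : ℝ) < y := by exact_mod_cast (by omega : 1 < y)
  have hL0 : 0 < Real.log y := Real.log_pos hy1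
  have hp0 : (0 : ℝ) < p := by exact_mod_cast pp.pos
  have hq0 : (0 : ℝ) < q := by exact_mod_cast pq.pos
  have hr0 : (0 : ℝ) < r := by exact_mod_cast pr.pos
  have hyp' : (y : ℝ) ≤ p := by exact_mod_cast hyp.le
  have hpq' : (p : ℝ) ≤ q := by exact_mod_cast hpq.le
  have hqr' : (q : ℝ) ≤ r := by exact_mod_cast hqr.le
  have ha : Real.log y ≤ Real.log p := Real.log_le_log (by linarith) hyp'
  have hab : Real.log p ≤ Real.log q := Real.log_le_log (by linarith) hpq'
  have hbc : Real.log q ≤ Real.log r := Real.log_le_log (by linarith) hqr'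
  rw [Real.log_mul hp0.ne' hr0.ne', Real.log_mul hq0.ne' hr0.ne'] at hcon
  have h72 : (Real.log p + Real.log r) * (Real.log q + Real.log r) ≤ ρ' * (Real.log y) ^ 2 :=
    hcon.trans (mul_le_mul_of_nonneg_right hρρ (by positivity))
  have h72' : (Real.log p + Real.log r) * (Real.log q + Real.log r) < 72 * (Real.log y) ^ 2 := by
    refine h72.trans_lt (mul_lt_mul_of_pos_right (hρ16.trans lt_72) (by positivity))
  have hc9 : Real.log r ≤ 9 * Real.log y := by
    by_contra h9
    push Not at h9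
    nlinarith
  have hr9 : (r : ℝ) ≤ (y : ℝ) ^ (9 : ℝ) := by
    rw [← Real.log_le_log_iff hr0 (by positivity), Real.log_rpow (by linarith)]
    exact hc9
  have hκ : ∀ s t : ℕ, (s : ℝ) ≤ r → (t : ℝ) ≤ r →
      ((s * t : ℕ) : ℝ) ^ (1 / 18 : ℝ) ≤ y := by
    intro s t hs' ht'
    have h3 : ((s * t : ℕ) : ℝ) ≤ (y : ℝ) ^ (18 : ℝ) := by
      push_cast
      rw [show (18 : ℝ) = 9 + 9 by norm_num, Real.rpow_add (by linarith)]
      exact mul_le_mul (hs'.trans hr9) (ht'.trans hr9) (by positivity) (by positivity)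
    calc ((s * t : ℕ) : ℝ) ^ (1 / 18 : ℝ) ≤ ((y : ℝ) ^ (18 : ℝ)) ^ (1 / 18 : ℝ) :=
          Real.rpow_le_rpow (by positivity) h3 (by norm_num)
      _ = y := by
          rw [← Real.rpow_mul (by linarith)]; norm_num
  have hpr' : (p : ℝ) ≤ r := hpq'.trans hqr'
  have hp2 : p ≠ 2 := by omega
  have hq2 : q ≠ 2 := by omega
  have hr2 : r ≠ 2 := by omega
  have i1 : NeZero (p * q) := ⟨Nat.mul_ne_zero pp.ne_zero pq.ne_zero⟩
  have i2 : NeZero (p * r) := ⟨Nat.mul_ne_zero pp.ne_zero pr.ne_zero⟩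
  have i3 : NeZero (q * r) := ⟨Nat.mul_ne_zero pq.ne_zero pr.ne_zero⟩
  have f1 := h2 (1 / 18) p q pp pq hp2 hq2 hpq.ne ((hκ p q hpr' hqr').trans hyp')
    ((hκ p q hpr' hqr').trans (hyp'.trans hpq'))
  have six : ∀ N : ℕ, (y : ℝ) ^ (6 : ℝ) < N → 6 * Real.log y ≤ Real.log N := by
    intro N hN
    have h3 := Real.log_le_log (by positivity) hN.le
    rwa [Real.log_rpow (by linarith)] at h3
  rcases hor with hor | ⟨N, hN, hJ⟩ | ⟨hJr, hJpq⟩
  · have f2 := h2 (1 / 18) p r pp pr hp2 hr2 (hpq.trans hqr).ne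
      ((hκ p r hpr' le_rfl).trans hyp') ((hκ p r hpr' le_rfl).trans (hyp'.trans hpr'))
    have f3 := h2 (1 / 18) q r pq pr hq2 hr2 hqr.ne
      ((hκ q r hqr' le_rfl).trans (hyp'.trans hpq'))
      ((hκ q r hqr' le_rfl).trans (hyp'.trans hpr'))
    have hT' := hNT (p * q) (p * r) (q * r) y (by omega)
      ((by omega : NT ≤ p).trans (Nat.le_mul_of_pos_right _ pq.pos))
      (Nat.mul_le_mul_left _ hqr.le) (Nat.mul_le_mul_right _ hpq.le)
      (jchar (p * q)) (jchar (p * r)) (jchar (q * r)) f1 f2 f3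
      (fun l hl hly => by
        obtain ⟨j1, j2, j3⟩ := hor l hl hly
        rw [jchar_apply, jchar_apply, jchar_apply, j1, j2, j3]
        norm_num) {p, q, r} Finset.card_le_three (fun l hl hlE => by
        rw [jchar_apply, jchar_apply, jchar_apply]
        rcases one_of_three pp pq pr hl hlE with j | j | j
        · left; rw [j]; norm_num
        · right; left; rw [j]; norm_num
        · right; right; rw [j]; norm_num)
    push_cast at hT'
    rw [Real.log_mul hp0.ne' hr0.ne', Real.log_mul hq0.ne' hr0.ne'] at hT'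
    have h3 : (Real.log y) ^ 2 ≤ Real.exp (-(3 / 2) + τ / 2) / 16 * (ρ' * (Real.log y) ^ 2) := by
      refine hT'.trans ?_
      rw [mul_assoc]
      exact mul_le_mul_of_nonneg_left h72 (by positivity)
    have h4 : 0 < (Real.log y) ^ 2 := by positivity
    nlinarith
  · have hNp : N.Prime := by rcases hN with rfl | rfl <;> assumption
    have hNy : y < N := by rcases hN with rfl | rfl <;> omega
    have hNq : (N : ℝ) ≤ q := by
      rcases hN with rfl | rfl
      · exact hpq'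
      · exact le_rfl
    have : NeZero N := ⟨hNp.ne_zero⟩
    have h5 := hNS y (by omega) N hNy (h1 (1 / 18) N hNp (by omega) (by norm_num)) hJ
    have h6 := six N h5
    have h7 : Real.log N ≤ Real.log q :=
      Real.log_le_log (by exact_mod_cast hNp.pos) hNq
    nlinarith
  · have i4 : NeZero r := ⟨pr.ne_zero⟩
    have h5 := six r (hNS y (by omega) r (by omega)
      (h1 (1 / 18) r pr (by omega) (by norm_num)) hJr)
    have h6 := six (p * q) (hNS y (by omega) (p * q)
      (hyp.trans_le (Nat.le_mul_of_pos_right _ pq.pos)) f1 hJpq)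
    push_cast at h6
    rw [Real.log_mul hp0.ne' hq0.ne'] at h6
    have h7 : 3 * Real.log y ≤ Real.log q := by linarith
    have h8 : Real.log y * (3 * Real.log y) ≤ Real.log p * Real.log q :=
      mul_le_mul ha h7 (by linarith) (by linarith)
    have h9 : (6 * Real.log y) * (6 * Real.log y) ≤
        (Real.log p + Real.log q) * Real.log r :=
      mul_le_mul h6 h5 (by linarith) (by linarith)
    have h10 : (6 * Real.log y) * (6 * Real.log y) ≤ Real.log r * Real.log r :=
      mul_le_mul h5 h5 (by linarith) (by linarith)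
    nlinarith

end Pool.Agent.Q75.SW
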